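import Pool.Agent.NNr.R11_1_3_4.D0
import Pool.Agent.NNr.R11_1_3_4.D1
import Pool.Agent.NNr.R11_1_3_4.D2
import Pool.Agent.NNe.Slots

set_option linter.all false
set_option maxRecDepth 1000000
namespace Pool.Agent.NNr.R11_1_3_4

open Pool.Agent.NNe

def st1_14_0 : starCk (nat_lit 60) (nat_lit 5) (nat_lit 1) (nat_lit 2) (nat_lit 140) (nat_lit 316) (nat_lit 16) C1_14 = true := by decide +kernel
def sc1_14 : stCov (nat_lit 1) (nat_lit 316) (Rl.cons (nat_lit 316) (nat_lit 140) Rl.nil) C1_14 = true := by decide +kernel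
def wf1_15 : wfC (nat_lit 60) (nat_lit 5) C1_15 = true := by decide +kernel
def rf1_15 : rfCk (nat_lit 60) (nat_lit 5) (nat_lit 60) (nat_lit 5) (nat_lit 1) (nat_lit 262144) (nat_lit 15) TL1 CL0 CL1 = true := by decide +kernel
def st1_15_0 : starCk (nat_lit 60) (nat_lit 5) (nat_lit 1) (nat_lit 2) (nat_lit 146) (nat_lit 320) (nat_lit 16) C1_15 = true := by decide +kernel
def sc1_15 : stCov (nat_lit 1) (nat_lit 320) (Rl.cons (nat_lit 320) (nat_lit 146) Rl.nil) C1_15 = true := by decide +kernel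
def wf1_16 : wfC (nat_lit 60) (nat_lit 5) C1_16 = true := by decide +kernel
def rf1_16 : rfCk (nat_lit 60) (nat_lit 5) (nat_lit 60) (nat_lit 5) (nat_lit 1) (nat_lit 262144) (nat_lit 16) TL1 CL0 CL1 = true := by decide +kernel
def st1_16_0 : starCk (nat_lit 60) (nat_lit 5) (nat_lit 1) (nat_lit 2) (nat_lit 82) (nat_lit 228) (nat_lit 256) C1_16 = true := by decide +kernel
def sc1_16 : stCov (nat_lit 2) (nat_lit 228) (Rl.cons (nat_lit 228) (nat_lit 82) Rl.nil) C1_16 = true := by decide +kernel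
def wf1_17 : wfC (nat_lit 60) (nat_lit 5) C1_17 = true := by decide +kernel
def rf1_17 : rfCk (nat_lit 60) (nat_lit 5) (nat_lit 60) (nat_lit 5) (nat_lit 1) (nat_lit 262144) (nat_lit 17) TL1 CL0 CL1 = true := by decide +kernel
def st1_17_0 : starCk (nat_lit 60) (nat_lit 5) (nat_lit 1) (nat_lit 2) (nat_lit 62) (nat_lit 188) (nat_lit 16) C1_17 = true := by decide +kernel
def sc1_17 : stCov (nat_lit 1) (nat_lit 188) (Rl.cons (nat_lit 188) (nat_lit 62) Rl.nil) C1_17 = true := by decide +kernel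
def ti1_0 : tileCk (nat_lit 60) (nat_lit 5) (nat_lit 2) (nat_lit 2) (nat_lit 393) (nat_lit 11) (nat_lit 19) ZL1_0 CL1 = true := by decide +kernel
def zl1_0 : zlOK (nat_lit 393) ZL1_0 = true := by decide +kernel
def ti1_1 : tileCk (nat_lit 60) (nat_lit 5) (nat_lit 2) (nat_lit 2) (nat_lit 393) (nat_lit 11) (nat_lit 19) ZL1_1 CL1 = true := by decide +kernel
def zl1_1 : zlOK (nat_lit 393) ZL1_1 = true := by decide +kernel
def tc1_0 : tiCov (nat_lit 1) (nat_lit 0) ZZ1 C1_0 = true := by decide +kernel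
def tc1_1 : tiCov (nat_lit 1) (nat_lit 1) ZZ1 C1_1 = true := by decide +kernel
def tc1_2 : tiCov (nat_lit 1) (nat_lit 2) ZZ1 C1_2 = true := by decide +kernel
def tc1_3 : tiCov (nat_lit 1) (nat_lit 3) ZZ1 C1_3 = true := by decide +kernel
def tc1_4 : tiCov (nat_lit 1) (nat_lit 4) ZZ1 C1_4 = true := by decide +kernel
def tc1_5 : tiCov (nat_lit 1) (nat_lit 5) ZZ1 C1_5 = true := by decide +kernel
def tc1_6 : tiCov (nat_lit 1) (nat_lit 6) ZZ1 C1_6 = true := by decide +kernel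
def tc1_7 : tiCov (nat_lit 1) (nat_lit 7) ZZ1 C1_7 = true := by decide +kernel
def tc1_8 : tiCov (nat_lit 1) (nat_lit 8) ZZ1 C1_8 = true := by decide +kernel
def tc1_13 : tiCov (nat_lit 1) (nat_lit 13) ZZ1 C1_13 = true := by decide +kernel
def tc1_14 : tiCov (nat_lit 1) (nat_lit 14) ZZ1 C1_14 = true := by decide +kernel
def tc1_15 : tiCov (nat_lit 1) (nat_lit 15) ZZ1 C1_15 = true := by decide +kernel
def tc1_16 : tiCov (nat_lit 1) (nat_lit 16) ZZ1 C1_16 = true := by decide +kernel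
def tc1_17 : tiCov (nat_lit 1) (nat_lit 17) ZZ1 C1_17 = true := by decide +kernel
def wf2_0 : wfC (nat_lit 61) (nat_lit 2) C2_0 = true := by decide +kernel
def rf2_0 : rfCk (nat_lit 60) (nat_lit 5) (nat_lit 61) (nat_lit 2) (nat_lit 4) (nat_lit 524288) (nat_lit 0) TL2 CL1 CL2 = true := by decide +kernel
def wf2_1 : wfC (nat_lit 61) (nat_lit 2) C2_1 = true := by decide +kernel
def rf2_1 : rfCk (nat_lit 60) (nat_lit 5) (nat_lit 61) (nat_lit 2) (nat_lit 4) (nat_lit 524288) (nat_lit 1) TL2 CL1 CL2 = true := by decide +kernel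
def wf2_2 : wfC (nat_lit 61) (nat_lit 2) C2_2 = true := by decide +kernel
def rf2_2 : rfCk (nat_lit 60) (nat_lit 5) (nat_lit 61) (nat_lit 2) (nat_lit 4) (nat_lit 524288) (nat_lit 2) TL2 CL1 CL2 = true := by decide +kernel
def wf2_3 : wfC (nat_lit 61) (nat_lit 2) C2_3 = true := by decide +kernel
def rf2_3 : rfCk (nat_lit 60) (nat_lit 5) (nat_lit 61) (nat_lit 2) (nat_lit 4) (nat_lit 524288) (nat_lit 3) TL2 CL1 CL2 = true := by decide +kernel
def wf2_4 : wfC (nat_lit 61) (nat_lit 2) C2_4 = true := by decide +kernel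
def rf2_4 : rfCk (nat_lit 60) (nat_lit 5) (nat_lit 61) (nat_lit 2) (nat_lit 4) (nat_lit 524288) (nat_lit 4) TL2 CL1 CL2 = true := by decide +kernel
def wf2_5 : wfC (nat_lit 61) (nat_lit 2) C2_5 = true := by decide +kernel
def rf2_5 : rfCk (nat_lit 60) (nat_lit 5) (nat_lit 61) (nat_lit 2) (nat_lit 4) (nat_lit 524288) (nat_lit 5) TL2 CL1 CL2 = true := by decide +kernel
def wf2_6 : wfC (nat_lit 61) (nat_lit 2) C2_6 = true := by decide +kernel

end Pool.Agent.NNr.R11_1_3_4
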