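import Pool.Agent.NNr.R11_1_3_4.D4
import Pool.Agent.NNr.R11_1_3_4.D5

set_option linter.all false
set_option maxRecDepth 1000000
namespace Pool.Agent.NNr.R11_1_3_4

open Pool.Agent.NNe

def st5_15_0 : starCk (nat_lit 61) (nat_lit 3) (nat_lit 1) (nat_lit 1) (nat_lit 225) (nat_lit 600) (nat_lit 1) C5_15 = true := by decide +kernel
def st5_15_1 : starCk (nat_lit 61) (nat_lit 3) (nat_lit 1) (nat_lit 1) (nat_lit 226) (nat_lit 825) (nat_lit 1) C5_15 = true := by decide +kernel
def sc5_15 : stCov (nat_lit 0) (nat_lit 600) (Rl.cons (nat_lit 600) (nat_lit 225) (Rl.cons (nat_lit 825) (nat_lit 226) Rl.nil)) C5_15 = true := by decide +kernel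
def wf5_16 : wfC (nat_lit 61) (nat_lit 3) C5_16 = true := by decide +kernel
def rf5_16 : rfCk (nat_lit 61) (nat_lit 5) (nat_lit 61) (nat_lit 3) (nat_lit 3) (nat_lit 2097152) (nat_lit 16) TL5 CL4 CL5 = true := by decide +kernel
def st5_16_0 : starCk (nat_lit 61) (nat_lit 3) (nat_lit 1) (nat_lit 1) (nat_lit 364) (nat_lit 720) (nat_lit 256) C5_16 = true := by decide +kernel
def sc5_16 : stCov (nat_lit 2) (nat_lit 720) (Rl.cons (nat_lit 720) (nat_lit 364) Rl.nil) C5_16 = true := by decide +kernel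
def wf5_17 : wfC (nat_lit 61) (nat_lit 3) C5_17 = true := by decide +kernel

end Pool.Agent.NNr.R11_1_3_4
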