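import Pool.Agent.NNr.R11_1_3_4.D4
import Pool.Agent.NNr.R11_1_3_4.D5

set_option linter.all false
set_option maxRecDepth 1000000
namespace Pool.Agent.NNr.R11_1_3_4

open Pool.Agent.NNe

def rf5_17 : rfCk (nat_lit 61) (nat_lit 5) (nat_lit 61) (nat_lit 3) (nat_lit 3) (nat_lit 2097152) (nat_lit 17) TL5 CL4 CL5 = true := by decide +kernel
def st5_17_0 : starCk (nat_lit 61) (nat_lit 3) (nat_lit 1) (nat_lit 1) (nat_lit 152) (nat_lit 551) (nat_lit 16) C5_17 = true := by decide +kernel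
def sc5_17 : stCov (nat_lit 1) (nat_lit 551) (Rl.cons (nat_lit 551) (nat_lit 152) Rl.nil) C5_17 = true := by decide +kernel
def ti5_0 : tileCk (nat_lit 61) (nat_lit 3) (nat_lit 2) (nat_lit 1) (nat_lit 320) (nat_lit 11) (nat_lit 19) ZL5_0 CL5 = true := by decide +kernel
def zl5_0 : zlOK (nat_lit 320) ZL5_0 = true := by decide +kernel
def ti5_1 : tileCk (nat_lit 61) (nat_lit 3) (nat_lit 2) (nat_lit 1) (nat_lit 70) (nat_lit 11) (nat_lit 19) ZL5_1 CL5 = true := by decide +kernel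
def zl5_1 : zlOK (nat_lit 70) ZL5_1 = true := by decide +kernel
def ti5_2 : tileCk (nat_lit 61) (nat_lit 3) (nat_lit 2) (nat_lit 1) (nat_lit 159) (nat_lit 11) (nat_lit 19) ZL5_2 CL5 = true := by decide +kernel
def zl5_2 : zlOK (nat_lit 159) ZL5_2 = true := by decide +kernel
def ti5_3 : tileCk (nat_lit 61) (nat_lit 3) (nat_lit 2) (nat_lit 1) (nat_lit 188) (nat_lit 11) (nat_lit 19) ZL5_3 CL5 = true := by decide +kernel
def zl5_3 : zlOK (nat_lit 188) ZL5_3 = true := by decide +kernel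
def ti5_4 : tileCk (nat_lit 61) (nat_lit 3) (nat_lit 2) (nat_lit 1) (nat_lit 26) (nat_lit 11) (nat_lit 19) ZL5_4 CL5 = true := by decide +kernel
def zl5_4 : zlOK (nat_lit 26) ZL5_4 = true := by decide +kernel
def ti5_5 : tileCk (nat_lit 61) (nat_lit 3) (nat_lit 2) (nat_lit 1) (nat_lit 181) (nat_lit 11) (nat_lit 19) ZL5_5 CL5 = true := by decide +kernel
def zl5_5 : zlOK (nat_lit 181) ZL5_5 = true := by decide +kernel

end Pool.Agent.NNr.R11_1_3_4
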