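import Pool.Agent.NNr.R11_1_3_4.D5
import Pool.Agent.NNr.R11_1_3_4.D6

set_option linter.all false
set_option maxRecDepth 1000000
namespace Pool.Agent.NNr.R11_1_3_4

open Pool.Agent.NNe

def ti5_6 : tileCk (nat_lit 61) (nat_lit 3) (nat_lit 2) (nat_lit 1) (nat_lit 320) (nat_lit 11) (nat_lit 19) ZL5_6 CL5 = true := by decide +kernel
def zl5_6 : zlOK (nat_lit 320) ZL5_6 = true := by decide +kernel
def ti5_7 : tileCk (nat_lit 61) (nat_lit 3) (nat_lit 2) (nat_lit 1) (nat_lit 70) (nat_lit 11) (nat_lit 19) ZL5_7 CL5 = true := by decide +kernel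
def zl5_7 : zlOK (nat_lit 70) ZL5_7 = true := by decide +kernel
def ti5_8 : tileCk (nat_lit 61) (nat_lit 3) (nat_lit 2) (nat_lit 1) (nat_lit 159) (nat_lit 11) (nat_lit 19) ZL5_8 CL5 = true := by decide +kernel
def zl5_8 : zlOK (nat_lit 159) ZL5_8 = true := by decide +kernel
def ti5_9 : tileCk (nat_lit 61) (nat_lit 3) (nat_lit 2) (nat_lit 1) (nat_lit 188) (nat_lit 11) (nat_lit 19) ZL5_9 CL5 = true := by decide +kernel
def zl5_9 : zlOK (nat_lit 188) ZL5_9 = true := by decide +kernel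
def ti5_10 : tileCk (nat_lit 61) (nat_lit 3) (nat_lit 2) (nat_lit 1) (nat_lit 26) (nat_lit 11) (nat_lit 19) ZL5_10 CL5 = true := by decide +kernel
def zl5_10 : zlOK (nat_lit 26) ZL5_10 = true := by decide +kernel
def ti5_11 : tileCk (nat_lit 61) (nat_lit 3) (nat_lit 2) (nat_lit 1) (nat_lit 181) (nat_lit 11) (nat_lit 19) ZL5_11 CL5 = true := by decide +kernel
def zl5_11 : zlOK (nat_lit 181) ZL5_11 = true := by decide +kernel
def tc5_0 : tiCov (nat_lit 1) (nat_lit 0) ZZ5 C5_0 = true := by decide +kernel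
def tc5_1 : tiCov (nat_lit 1) (nat_lit 1) ZZ5 C5_1 = true := by decide +kernel
def tc5_2 : tiCov (nat_lit 1) (nat_lit 2) ZZ5 C5_2 = true := by decide +kernel
def tc5_3 : tiCov (nat_lit 1) (nat_lit 3) ZZ5 C5_3 = true := by decide +kernel
def tc5_4 : tiCov (nat_lit 1) (nat_lit 4) ZZ5 C5_4 = true := by decide +kernel
def tc5_5 : tiCov (nat_lit 1) (nat_lit 5) ZZ5 C5_5 = true := by decide +kernel
def tc5_6 : tiCov (nat_lit 1) (nat_lit 6) ZZ5 C5_6 = true := by decide +kernel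
def tc5_7 : tiCov (nat_lit 1) (nat_lit 7) ZZ5 C5_7 = true := by decide +kernel
def tc5_8 : tiCov (nat_lit 1) (nat_lit 8) ZZ5 C5_8 = true := by decide +kernel
def tc5_13 : tiCov (nat_lit 1) (nat_lit 13) ZZ5 C5_13 = true := by decide +kernel
def tc5_14 : tiCov (nat_lit 1) (nat_lit 14) ZZ5 C5_14 = true := by decide +kernel
def tc5_15 : tiCov (nat_lit 1) (nat_lit 15) ZZ5 C5_15 = true := by decide +kernel
def tc5_16 : tiCov (nat_lit 1) (nat_lit 16) ZZ5 C5_16 = true := by decide +kernel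
def tc5_17 : tiCov (nat_lit 1) (nat_lit 17) ZZ5 C5_17 = true := by decide +kernel
def wf6_0 : wfC (nat_lit 61) (nat_lit 11) C6_0 = true := by decide +kernel
def rf6_0 : rfCk (nat_lit 61) (nat_lit 3) (nat_lit 61) (nat_lit 11) (nat_lit 9) (nat_lit 0) (nat_lit 0) TL6 CL5 CL6 = true := by decide +kernel
def st6_0_0 : starCk (nat_lit 61) (nat_lit 11) (nat_lit 1) (nat_lit 5) (nat_lit 82) (nat_lit 0) (nat_lit 256) C6_0 = true := by decide +kernel
def sc6_0 : stCov (nat_lit 2) (nat_lit 0) (Rl.cons (nat_lit 0) (nat_lit 82) Rl.nil) C6_0 = true := by decide +kernel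
def wf6_1 : wfC (nat_lit 61) (nat_lit 11) C6_1 = true := by decide +kernel
def rf6_1 : rfCk (nat_lit 61) (nat_lit 3) (nat_lit 61) (nat_lit 11) (nat_lit 9) (nat_lit 0) (nat_lit 1) TL6 CL5 CL6 = true := by decide +kernel
def st6_1_0 : starCk (nat_lit 61) (nat_lit 11) (nat_lit 1) (nat_lit 5) (nat_lit 63) (nat_lit 200) (nat_lit 256) C6_1 = true := by decide +kernel
def sc6_1 : stCov (nat_lit 2) (nat_lit 200) (Rl.cons (nat_lit 200) (nat_lit 63) Rl.nil) C6_1 = true := by decide +kernel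
def wf6_2 : wfC (nat_lit 61) (nat_lit 11) C6_2 = true := by decide +kernel
def rf6_2 : rfCk (nat_lit 61) (nat_lit 3) (nat_lit 61) (nat_lit 11) (nat_lit 9) (nat_lit 0) (nat_lit 2) TL6 CL5 CL6 = true := by decide +kernel
def st6_2_0 : starCk (nat_lit 61) (nat_lit 11) (nat_lit 1) (nat_lit 5) (nat_lit 35) (nat_lit 101) (nat_lit 16) C6_2 = true := by decide +kernel
def sc6_2 : stCov (nat_lit 1) (nat_lit 101) (Rl.cons (nat_lit 101) (nat_lit 35) Rl.nil) C6_2 = true := by decide +kernel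
def wf6_3 : wfC (nat_lit 61) (nat_lit 11) C6_3 = true := by decide +kernel
def rf6_3 : rfCk (nat_lit 61) (nat_lit 3) (nat_lit 61) (nat_lit 11) (nat_lit 9) (nat_lit 0) (nat_lit 3) TL6 CL5 CL6 = true := by decide +kernel
def st6_3_0 : starCk (nat_lit 61) (nat_lit 11) (nat_lit 1) (nat_lit 5) (nat_lit 22) (nat_lit 20) (nat_lit 1) C6_3 = true := by decide +kernel
def sc6_3 : stCov (nat_lit 0) (nat_lit 20) (Rl.cons (nat_lit 20) (nat_lit 22) Rl.nil) C6_3 = true := by decide +kernel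
def wf6_4 : wfC (nat_lit 61) (nat_lit 11) C6_4 = true := by decide +kernel
def rf6_4 : rfCk (nat_lit 61) (nat_lit 3) (nat_lit 61) (nat_lit 11) (nat_lit 9) (nat_lit 0) (nat_lit 4) TL6 CL5 CL6 = true := by decide +kernel
def st6_4_0 : starCk (nat_lit 61) (nat_lit 11) (nat_lit 1) (nat_lit 5) (nat_lit 67) (nat_lit 167) (nat_lit 16) C6_4 = true := by decide +kernel
def sc6_4 : stCov (nat_lit 1) (nat_lit 167) (Rl.cons (nat_lit 167) (nat_lit 67) Rl.nil) C6_4 = true := by decide +kernel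
def wf6_5 : wfC (nat_lit 61) (nat_lit 11) C6_5 = true := by decide +kernel
def rf6_5 : rfCk (nat_lit 61) (nat_lit 3) (nat_lit 61) (nat_lit 11) (nat_lit 9) (nat_lit 0) (nat_lit 5) TL6 CL5 CL6 = true := by decide +kernel
def st6_5_0 : starCk (nat_lit 61) (nat_lit 11) (nat_lit 1) (nat_lit 5) (nat_lit 62) (nat_lit 280) (nat_lit 256) C6_5 = true := by decide +kernel

end Pool.Agent.NNr.R11_1_3_4
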