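import Pool.Agent.NNr.R11_1_3_4.D5
import Pool.Agent.NNr.R11_1_3_4.D6

set_option linter.all false
set_option maxRecDepth 1000000
namespace Pool.Agent.NNr.R11_1_3_4

open Pool.Agent.NNe

def sc6_5 : stCov (nat_lit 2) (nat_lit 280) (Rl.cons (nat_lit 280) (nat_lit 62) Rl.nil) C6_5 = true := by decide +kernel
def wf6_6 : wfC (nat_lit 61) (nat_lit 11) C6_6 = true := by decide +kernel
def rf6_6 : rfCk (nat_lit 61) (nat_lit 3) (nat_lit 61) (nat_lit 11) (nat_lit 9) (nat_lit 0) (nat_lit 6) TL6 CL5 CL6 = true := by decide +kernel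
def st6_6_0 : starCk (nat_lit 61) (nat_lit 11) (nat_lit 1) (nat_lit 5) (nat_lit 23) (nat_lit 40) (nat_lit 256) C6_6 = true := by decide +kernel
def sc6_6 : stCov (nat_lit 2) (nat_lit 40) (Rl.cons (nat_lit 40) (nat_lit 23) Rl.nil) C6_6 = true := by decide +kernel
def wf6_7 : wfC (nat_lit 61) (nat_lit 11) C6_7 = true := by decide +kernel
def rf6_7 : rfCk (nat_lit 61) (nat_lit 3) (nat_lit 61) (nat_lit 11) (nat_lit 9) (nat_lit 0) (nat_lit 7) TL6 CL5 CL6 = true := by decide +kernel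
def st6_7_0 : starCk (nat_lit 61) (nat_lit 11) (nat_lit 1) (nat_lit 5) (nat_lit 22) (nat_lit 45) (nat_lit 16) C6_7 = true := by decide +kernel
def sc6_7 : stCov (nat_lit 1) (nat_lit 45) (Rl.cons (nat_lit 45) (nat_lit 22) Rl.nil) C6_7 = true := by decide +kernel
def wf6_8 : wfC (nat_lit 61) (nat_lit 11) C6_8 = true := by decide +kernel
def rf6_8 : rfCk (nat_lit 61) (nat_lit 3) (nat_lit 61) (nat_lit 11) (nat_lit 9) (nat_lit 0) (nat_lit 8) TL6 CL5 CL6 = true := by decide +kernel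
def st6_8_0 : starCk (nat_lit 61) (nat_lit 11) (nat_lit 1) (nat_lit 5) (nat_lit 6) (nat_lit 41) (nat_lit 16) C6_8 = true := by decide +kernel
def sc6_8 : stCov (nat_lit 1) (nat_lit 41) (Rl.cons (nat_lit 41) (nat_lit 6) Rl.nil) C6_8 = true := by decide +kernel
def wf6_13 : wfC (nat_lit 61) (nat_lit 11) C6_13 = true := by decide +kernel
def rf6_13 : rfCk (nat_lit 61) (nat_lit 3) (nat_lit 61) (nat_lit 11) (nat_lit 9) (nat_lit 0) (nat_lit 13) TL6 CL5 CL6 = true := by decide +kernel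
def st6_13_0 : starCk (nat_lit 61) (nat_lit 11) (nat_lit 1) (nat_lit 5) (nat_lit 240) (nat_lit 964) (nat_lit 4096) C6_13 = true := by decide +kernel
def st6_13_1 : starCk (nat_lit 61) (nat_lit 11) (nat_lit 1) (nat_lit 5) (nat_lit 240) (nat_lit 1204) (nat_lit 4096) C6_13 = true := by decide +kernel
def st6_13_2 : starCk (nat_lit 61) (nat_lit 11) (nat_lit 1) (nat_lit 5) (nat_lit 241) (nat_lit 1444) (nat_lit 4096) C6_13 = true := by decide +kernel
def sc6_13 : stCov (nat_lit 3) (nat_lit 964) (Rl.cons (nat_lit 964) (nat_lit 240) (Rl.cons (nat_lit 1204) (nat_lit 240) (Rl.cons (nat_lit 1444) (nat_lit 241) Rl.nil))) C6_13 = true := by decide +kernel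
def wf6_14 : wfC (nat_lit 61) (nat_lit 11) C6_14 = true := by decide +kernel
def rf6_14 : rfCk (nat_lit 61) (nat_lit 3) (nat_lit 61) (nat_lit 11) (nat_lit 9) (nat_lit 0) (nat_lit 14) TL6 CL5 CL6 = true := by decide +kernel
def st6_14_0 : starCk (nat_lit 61) (nat_lit 11) (nat_lit 1) (nat_lit 5) (nat_lit 108) (nat_lit 585) (nat_lit 16) C6_14 = true := by decide +kernel
def st6_14_1 : starCk (nat_lit 61) (nat_lit 11) (nat_lit 1) (nat_lit 5) (nat_lit 109) (nat_lit 693) (nat_lit 16) C6_14 = true := by decide +kernel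
def sc6_14 : stCov (nat_lit 1) (nat_lit 585) (Rl.cons (nat_lit 585) (nat_lit 108) (Rl.cons (nat_lit 693) (nat_lit 109) Rl.nil)) C6_14 = true := by decide +kernel
def wf6_15 : wfC (nat_lit 61) (nat_lit 11) C6_15 = true := by decide +kernel

end Pool.Agent.NNr.R11_1_3_4
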