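import Pool.Agent.NNr.R11_1_3_4.D5
import Pool.Agent.NNr.R11_1_3_4.D6

set_option linter.all false
set_option maxRecDepth 1000000
namespace Pool.Agent.NNr.R11_1_3_4

open Pool.Agent.NNe

def rf6_15 : rfCk (nat_lit 61) (nat_lit 3) (nat_lit 61) (nat_lit 11) (nat_lit 9) (nat_lit 0) (nat_lit 15) TL6 CL5 CL6 = true := by decide +kernel
def st6_15_0 : starCk (nat_lit 61) (nat_lit 11) (nat_lit 1) (nat_lit 5) (nat_lit 124) (nat_lit 556) (nat_lit 16) C6_15 = true := by decide +kernel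
def st6_15_1 : starCk (nat_lit 61) (nat_lit 11) (nat_lit 1) (nat_lit 5) (nat_lit 124) (nat_lit 680) (nat_lit 16) C6_15 = true := by decide +kernel
def sc6_15 : stCov (nat_lit 1) (nat_lit 556) (Rl.cons (nat_lit 556) (nat_lit 124) (Rl.cons (nat_lit 680) (nat_lit 124) Rl.nil)) C6_15 = true := by decide +kernel
def wf6_16 : wfC (nat_lit 61) (nat_lit 11) C6_16 = true := by decide +kernel
def rf6_16 : rfCk (nat_lit 61) (nat_lit 3) (nat_lit 61) (nat_lit 11) (nat_lit 9) (nat_lit 0) (nat_lit 16) TL6 CL5 CL6 = true := by decide +kernel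
def st6_16_0 : starCk (nat_lit 61) (nat_lit 11) (nat_lit 1) (nat_lit 5) (nat_lit 174) (nat_lit 391) (nat_lit 256) C6_16 = true := by decide +kernel
def sc6_16 : stCov (nat_lit 2) (nat_lit 391) (Rl.cons (nat_lit 391) (nat_lit 174) Rl.nil) C6_16 = true := by decide +kernel
def wf6_17 : wfC (nat_lit 61) (nat_lit 11) C6_17 = true := by decide +kernel
def rf6_17 : rfCk (nat_lit 61) (nat_lit 3) (nat_lit 61) (nat_lit 11) (nat_lit 9) (nat_lit 0) (nat_lit 17) TL6 CL5 CL6 = true := by decide +kernel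
def st6_17_0 : starCk (nat_lit 61) (nat_lit 11) (nat_lit 1) (nat_lit 5) (nat_lit 55) (nat_lit 292) (nat_lit 16) C6_17 = true := by decide +kernel
def sc6_17 : stCov (nat_lit 1) (nat_lit 292) (Rl.cons (nat_lit 292) (nat_lit 55) Rl.nil) C6_17 = true := by decide +kernel
def ti6_0 : tileCk (nat_lit 61) (nat_lit 11) (nat_lit 2) (nat_lit 5) (nat_lit 181) (nat_lit 11) (nat_lit 19) ZL6_0 CL6 = true := by decide +kernel
def zl6_0 : zlOK (nat_lit 181) ZL6_0 = true := by decide +kernel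
def ti6_1 : tileCk (nat_lit 61) (nat_lit 11) (nat_lit 2) (nat_lit 5) (nat_lit 36) (nat_lit 11) (nat_lit 19) ZL6_1 CL6 = true := by decide +kernel
def zl6_1 : zlOK (nat_lit 36) ZL6_1 = true := by decide +kernel

end Pool.Agent.NNr.R11_1_3_4
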