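import Pool.Agent.NNr.R11_1_3_4.D6
import Pool.Agent.NNr.R11_1_3_4.D7

set_option linter.all false
set_option maxRecDepth 1000000
namespace Pool.Agent.NNr.R11_1_3_4

open Pool.Agent.NNe

def ti6_2 : tileCk (nat_lit 61) (nat_lit 11) (nat_lit 2) (nat_lit 5) (nat_lit 101) (nat_lit 11) (nat_lit 19) ZL6_2 CL6 = true := by decide +kernel
def zl6_2 : zlOK (nat_lit 101) ZL6_2 = true := by decide +kernel
def ti6_3 : tileCk (nat_lit 61) (nat_lit 11) (nat_lit 2) (nat_lit 5) (nat_lit 154) (nat_lit 11) (nat_lit 19) ZL6_3 CL6 = true := by decide +kernel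
def zl6_3 : zlOK (nat_lit 154) ZL6_3 = true := by decide +kernel
def ti6_4 : tileCk (nat_lit 61) (nat_lit 11) (nat_lit 2) (nat_lit 5) (nat_lit 17) (nat_lit 11) (nat_lit 19) ZL6_4 CL6 = true := by decide +kernel
def zl6_4 : zlOK (nat_lit 17) ZL6_4 = true := by decide +kernel
def ti6_5 : tileCk (nat_lit 61) (nat_lit 11) (nat_lit 2) (nat_lit 5) (nat_lit 124) (nat_lit 11) (nat_lit 19) ZL6_5 CL6 = true := by decide +kernel
def zl6_5 : zlOK (nat_lit 124) ZL6_5 = true := by decide +kernel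
def ti6_6 : tileCk (nat_lit 61) (nat_lit 11) (nat_lit 2) (nat_lit 5) (nat_lit 84) (nat_lit 11) (nat_lit 19) ZL6_6 CL6 = true := by decide +kernel
def zl6_6 : zlOK (nat_lit 84) ZL6_6 = true := by decide +kernel
def ti6_7 : tileCk (nat_lit 61) (nat_lit 11) (nat_lit 2) (nat_lit 5) (nat_lit 9) (nat_lit 11) (nat_lit 19) ZL6_7 CL6 = true := by decide +kernel
def zl6_7 : zlOK (nat_lit 9) ZL6_7 = true := by decide +kernel
def ti6_8 : tileCk (nat_lit 61) (nat_lit 11) (nat_lit 2) (nat_lit 5) (nat_lit 98) (nat_lit 11) (nat_lit 19) ZL6_8 CL6 = true := by decide +kernel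
def zl6_8 : zlOK (nat_lit 98) ZL6_8 = true := by decide +kernel
def tc6_0 : tiCov (nat_lit 1) (nat_lit 0) ZZ6 C6_0 = true := by decide +kernel
def tc6_1 : tiCov (nat_lit 1) (nat_lit 1) ZZ6 C6_1 = true := by decide +kernel
def tc6_2 : tiCov (nat_lit 1) (nat_lit 2) ZZ6 C6_2 = true := by decide +kernel
def tc6_3 : tiCov (nat_lit 1) (nat_lit 3) ZZ6 C6_3 = true := by decide +kernel
def tc6_4 : tiCov (nat_lit 1) (nat_lit 4) ZZ6 C6_4 = true := by decide +kernel
def tc6_5 : tiCov (nat_lit 1) (nat_lit 5) ZZ6 C6_5 = true := by decide +kernel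
def tc6_6 : tiCov (nat_lit 1) (nat_lit 6) ZZ6 C6_6 = true := by decide +kernel
def tc6_7 : tiCov (nat_lit 1) (nat_lit 7) ZZ6 C6_7 = true := by decide +kernel
def tc6_8 : tiCov (nat_lit 1) (nat_lit 8) ZZ6 C6_8 = true := by decide +kernel
def tc6_13 : tiCov (nat_lit 1) (nat_lit 13) ZZ6 C6_13 = true := by decide +kernel
def tc6_14 : tiCov (nat_lit 1) (nat_lit 14) ZZ6 C6_14 = true := by decide +kernel
def tc6_15 : tiCov (nat_lit 1) (nat_lit 15) ZZ6 C6_15 = true := by decide +kernel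
def tc6_16 : tiCov (nat_lit 1) (nat_lit 16) ZZ6 C6_16 = true := by decide +kernel
def tc6_17 : tiCov (nat_lit 1) (nat_lit 17) ZZ6 C6_17 = true := by decide +kernel
def wf7_0 : wfC (nat_lit 61) (nat_lit 17) C7_0 = true := by decide +kernel
def rf7_0 : rfCk (nat_lit 61) (nat_lit 11) (nat_lit 61) (nat_lit 17) (nat_lit 9) (nat_lit 0) (nat_lit 0) TL7 CL6 CL7 = true := by decide +kernel
def st7_0_0 : starCk (nat_lit 61) (nat_lit 17) (nat_lit 1) (nat_lit 8) (nat_lit 40) (nat_lit 0) (nat_lit 256) C7_0 = true := by decide +kernel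
def sc7_0 : stCov (nat_lit 2) (nat_lit 0) (Rl.cons (nat_lit 0) (nat_lit 40) Rl.nil) C7_0 = true := by decide +kernel
def wf7_1 : wfC (nat_lit 61) (nat_lit 17) C7_1 = true := by decide +kernel
def rf7_1 : rfCk (nat_lit 61) (nat_lit 11) (nat_lit 61) (nat_lit 17) (nat_lit 9) (nat_lit 0) (nat_lit 1) TL7 CL6 CL7 = true := by decide +kernel
def st7_1_0 : starCk (nat_lit 61) (nat_lit 17) (nat_lit 1) (nat_lit 8) (nat_lit 39) (nat_lit 136) (nat_lit 256) C7_1 = true := by decide +kernel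
def sc7_1 : stCov (nat_lit 2) (nat_lit 136) (Rl.cons (nat_lit 136) (nat_lit 39) Rl.nil) C7_1 = true := by decide +kernel
def wf7_2 : wfC (nat_lit 61) (nat_lit 17) C7_2 = true := by decide +kernel
def rf7_2 : rfCk (nat_lit 61) (nat_lit 11) (nat_lit 61) (nat_lit 17) (nat_lit 9) (nat_lit 0) (nat_lit 2) TL7 CL6 CL7 = true := by decide +kernel
def st7_2_0 : starCk (nat_lit 61) (nat_lit 17) (nat_lit 1) (nat_lit 8) (nat_lit 28) (nat_lit 63) (nat_lit 16) C7_2 = true := by decide +kernel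
def sc7_2 : stCov (nat_lit 1) (nat_lit 63) (Rl.cons (nat_lit 63) (nat_lit 28) Rl.nil) C7_2 = true := by decide +kernel
def wf7_3 : wfC (nat_lit 61) (nat_lit 17) C7_3 = true := by decide +kernel
def rf7_3 : rfCk (nat_lit 61) (nat_lit 11) (nat_lit 61) (nat_lit 17) (nat_lit 9) (nat_lit 0) (nat_lit 3) TL7 CL6 CL7 = true := by decide +kernel
def st7_3_0 : starCk (nat_lit 61) (nat_lit 17) (nat_lit 1) (nat_lit 8) (nat_lit 7) (nat_lit 11) (nat_lit 1) C7_3 = true := by decide +kernel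
def sc7_3 : stCov (nat_lit 0) (nat_lit 11) (Rl.cons (nat_lit 11) (nat_lit 7) Rl.nil) C7_3 = true := by decide +kernel
def wf7_4 : wfC (nat_lit 61) (nat_lit 17) C7_4 = true := by decide +kernel
def rf7_4 : rfCk (nat_lit 61) (nat_lit 11) (nat_lit 61) (nat_lit 17) (nat_lit 9) (nat_lit 0) (nat_lit 4) TL7 CL6 CL7 = true := by decide +kernel
def st7_4_0 : starCk (nat_lit 61) (nat_lit 17) (nat_lit 1) (nat_lit 8) (nat_lit 54) (nat_lit 136) (nat_lit 16) C7_4 = true := by decide +kernel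
def sc7_4 : stCov (nat_lit 1) (nat_lit 136) (Rl.cons (nat_lit 136) (nat_lit 54) Rl.nil) C7_4 = true := by decide +kernel
def wf7_5 : wfC (nat_lit 61) (nat_lit 17) C7_5 = true := by decide +kernel
def rf7_5 : rfCk (nat_lit 61) (nat_lit 11) (nat_lit 61) (nat_lit 17) (nat_lit 9) (nat_lit 0) (nat_lit 5) TL7 CL6 CL7 = true := by decide +kernel
def st7_5_0 : starCk (nat_lit 61) (nat_lit 17) (nat_lit 1) (nat_lit 8) (nat_lit 47) (nat_lit 224) (nat_lit 256) C7_5 = true := by decide +kernel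
def sc7_5 : stCov (nat_lit 2) (nat_lit 224) (Rl.cons (nat_lit 224) (nat_lit 47) Rl.nil) C7_5 = true := by decide +kernel
def wf7_6 : wfC (nat_lit 61) (nat_lit 17) C7_6 = true := by decide +kernel
def rf7_6 : rfCk (nat_lit 61) (nat_lit 11) (nat_lit 61) (nat_lit 17) (nat_lit 9) (nat_lit 0) (nat_lit 6) TL7 CL6 CL7 = true := by decide +kernel
def st7_6_0 : starCk (nat_lit 61) (nat_lit 17) (nat_lit 1) (nat_lit 8) (nat_lit 11) (nat_lit 20) (nat_lit 256) C7_6 = true := by decide +kernel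
def sc7_6 : stCov (nat_lit 2) (nat_lit 20) (Rl.cons (nat_lit 20) (nat_lit 11) Rl.nil) C7_6 = true := by decide +kernel
def wf7_7 : wfC (nat_lit 61) (nat_lit 17) C7_7 = true := by decide +kernel
def rf7_7 : rfCk (nat_lit 61) (nat_lit 11) (nat_lit 61) (nat_lit 17) (nat_lit 9) (nat_lit 0) (nat_lit 7) TL7 CL6 CL7 = true := by decide +kernel
def st7_7_0 : starCk (nat_lit 61) (nat_lit 17) (nat_lit 1) (nat_lit 8) (nat_lit 16) (nat_lit 16) (nat_lit 1) C7_7 = true := by decide +kernel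
def sc7_7 : stCov (nat_lit 0) (nat_lit 16) (Rl.cons (nat_lit 16) (nat_lit 16) Rl.nil) C7_7 = true := by decide +kernel
def wf7_8 : wfC (nat_lit 61) (nat_lit 17) C7_8 = true := by decide +kernel
def rf7_8 : rfCk (nat_lit 61) (nat_lit 11) (nat_lit 61) (nat_lit 17) (nat_lit 9) (nat_lit 0) (nat_lit 8) TL7 CL6 CL7 = true := by decide +kernel
def st7_8_0 : starCk (nat_lit 61) (nat_lit 17) (nat_lit 1) (nat_lit 8) (nat_lit 4) (nat_lit 25) (nat_lit 16) C7_8 = true := by decide +kernel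
def sc7_8 : stCov (nat_lit 1) (nat_lit 25) (Rl.cons (nat_lit 25) (nat_lit 4) Rl.nil) C7_8 = true := by decide +kernel
def wf7_13 : wfC (nat_lit 61) (nat_lit 17) C7_13 = true := by decide +kernel
def rf7_13 : rfCk (nat_lit 61) (nat_lit 11) (nat_lit 61) (nat_lit 17) (nat_lit 9) (nat_lit 0) (nat_lit 13) TL7 CL6 CL7 = true := by decide +kernel

end Pool.Agent.NNr.R11_1_3_4
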