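import Pool.Agent.NNr.R11_1_3_4.D6
import Pool.Agent.NNr.R11_1_3_4.D7

set_option linter.all false
set_option maxRecDepth 1000000
namespace Pool.Agent.NNr.R11_1_3_4

open Pool.Agent.NNe

def st7_13_0 : starCk (nat_lit 61) (nat_lit 17) (nat_lit 1) (nat_lit 8) (nat_lit 138) (nat_lit 580) (nat_lit 4096) C7_13 = true := by decide +kernel
def st7_13_1 : starCk (nat_lit 61) (nat_lit 17) (nat_lit 1) (nat_lit 8) (nat_lit 138) (nat_lit 718) (nat_lit 4096) C7_13 = true := by decide +kernel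
def st7_13_2 : starCk (nat_lit 61) (nat_lit 17) (nat_lit 1) (nat_lit 8) (nat_lit 139) (nat_lit 856) (nat_lit 4096) C7_13 = true := by decide +kernel
def sc7_13 : stCov (nat_lit 3) (nat_lit 580) (Rl.cons (nat_lit 580) (nat_lit 138) (Rl.cons (nat_lit 718) (nat_lit 138) (Rl.cons (nat_lit 856) (nat_lit 139) Rl.nil))) C7_13 = true := by decide +kernel
def wf7_14 : wfC (nat_lit 61) (nat_lit 17) C7_14 = true := by decide +kernel
def rf7_14 : rfCk (nat_lit 61) (nat_lit 11) (nat_lit 61) (nat_lit 17) (nat_lit 9) (nat_lit 0) (nat_lit 14) TL7 CL6 CL7 = true := by decide +kernel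
def st7_14_0 : starCk (nat_lit 61) (nat_lit 17) (nat_lit 1) (nat_lit 8) (nat_lit 141) (nat_lit 387) (nat_lit 16) C7_14 = true := by decide +kernel
def sc7_14 : stCov (nat_lit 1) (nat_lit 387) (Rl.cons (nat_lit 387) (nat_lit 141) Rl.nil) C7_14 = true := by decide +kernel
def wf7_15 : wfC (nat_lit 61) (nat_lit 17) C7_15 = true := by decide +kernel
def rf7_15 : rfCk (nat_lit 61) (nat_lit 11) (nat_lit 61) (nat_lit 17) (nat_lit 9) (nat_lit 0) (nat_lit 15) TL7 CL6 CL7 = true := by decide +kernel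
def st7_15_0 : starCk (nat_lit 61) (nat_lit 17) (nat_lit 1) (nat_lit 8) (nat_lit 149) (nat_lit 352) (nat_lit 16) C7_15 = true := by decide +kernel
def sc7_15 : stCov (nat_lit 1) (nat_lit 352) (Rl.cons (nat_lit 352) (nat_lit 149) Rl.nil) C7_15 = true := by decide +kernel
def wf7_16 : wfC (nat_lit 61) (nat_lit 17) C7_16 = true := by decide +kernel
def rf7_16 : rfCk (nat_lit 61) (nat_lit 11) (nat_lit 61) (nat_lit 17) (nat_lit 9) (nat_lit 0) (nat_lit 16) TL7 CL6 CL7 = true := by decide +kernel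
def st7_16_0 : starCk (nat_lit 61) (nat_lit 17) (nat_lit 1) (nat_lit 8) (nat_lit 101) (nat_lit 247) (nat_lit 256) C7_16 = true := by decide +kernel
def sc7_16 : stCov (nat_lit 2) (nat_lit 247) (Rl.cons (nat_lit 247) (nat_lit 101) Rl.nil) C7_16 = true := by decide +kernel
def wf7_17 : wfC (nat_lit 61) (nat_lit 17) C7_17 = true := by decide +kernel
def rf7_17 : rfCk (nat_lit 61) (nat_lit 11) (nat_lit 61) (nat_lit 17) (nat_lit 9) (nat_lit 0) (nat_lit 17) TL7 CL6 CL7 = true := by decide +kernel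
def st7_17_0 : starCk (nat_lit 61) (nat_lit 17) (nat_lit 1) (nat_lit 8) (nat_lit 18) (nat_lit 148) (nat_lit 16) C7_17 = true := by decide +kernel
def sc7_17 : stCov (nat_lit 1) (nat_lit 148) (Rl.cons (nat_lit 148) (nat_lit 18) Rl.nil) C7_17 = true := by decide +kernel
def ti7_0 : tileCk (nat_lit 61) (nat_lit 17) (nat_lit 2) (nat_lit 8) (nat_lit 151) (nat_lit 11) (nat_lit 19) ZL7_0 CL7 = true := by decide +kernel
def zl7_0 : zlOK (nat_lit 151) ZL7_0 = true := by decide +kernel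
def ti7_1 : tileCk (nat_lit 61) (nat_lit 17) (nat_lit 2) (nat_lit 8) (nat_lit 26) (nat_lit 11) (nat_lit 19) ZL7_1 CL7 = true := by decide +kernel
def zl7_1 : zlOK (nat_lit 26) ZL7_1 = true := by decide +kernel
def ti7_2 : tileCk (nat_lit 61) (nat_lit 17) (nat_lit 2) (nat_lit 8) (nat_lit 72) (nat_lit 11) (nat_lit 19) ZL7_2 CL7 = true := by decide +kernel
def zl7_2 : zlOK (nat_lit 72) ZL7_2 = true := by decide +kernel
def ti7_3 : tileCk (nat_lit 61) (nat_lit 17) (nat_lit 2) (nat_lit 8) (nat_lit 108) (nat_lit 11) (nat_lit 19) ZL7_3 CL7 = true := by decide +kernel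
def zl7_3 : zlOK (nat_lit 108) ZL7_3 = true := by decide +kernel
def ti7_4 : tileCk (nat_lit 61) (nat_lit 17) (nat_lit 2) (nat_lit 8) (nat_lit 13) (nat_lit 11) (nat_lit 19) ZL7_4 CL7 = true := by decide +kernel
def zl7_4 : zlOK (nat_lit 13) ZL7_4 = true := by decide +kernel

end Pool.Agent.NNr.R11_1_3_4
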