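import Pool.Agent.NNr.R11_1_3_4.D0
import Pool.Agent.NNr.R11_1_3_4.D1
import Pool.Agent.NNr.R11_1_3_4.D2
import Pool.Agent.NNr.R11_1_3_4.D3
import Pool.Agent.NNr.R11_1_3_4.D4
import Pool.Agent.NNr.R11_1_3_4.D5
import Pool.Agent.NNr.R11_1_3_4.D6
import Pool.Agent.NNr.R11_1_3_4.D7
import Pool.Agent.NNr.R11_1_3_4.D8
import Pool.Agent.NNe.Slots

set_option linter.all false
set_option maxRecDepth 1000000
namespace Pool.Agent.NNr.R11_1_3_4

open Pool.Agent.NNe

def ti7_5 : tileCk (nat_lit 61) (nat_lit 17) (nat_lit 2) (nat_lit 8) (nat_lit 73) (nat_lit 11) (nat_lit 19) ZL7_5 CL7 = true := by decide +kernel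
def zl7_5 : zlOK (nat_lit 73) ZL7_5 = true := by decide +kernel
def ti7_6 : tileCk (nat_lit 61) (nat_lit 17) (nat_lit 2) (nat_lit 8) (nat_lit 54) (nat_lit 11) (nat_lit 19) ZL7_6 CL7 = true := by decide +kernel
def zl7_6 : zlOK (nat_lit 54) ZL7_6 = true := by decide +kernel
def ti7_7 : tileCk (nat_lit 61) (nat_lit 17) (nat_lit 2) (nat_lit 8) (nat_lit 5) (nat_lit 11) (nat_lit 19) ZL7_7 CL7 = true := by decide +kernel
def zl7_7 : zlOK (nat_lit 5) ZL7_7 = true := by decide +kernel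
def ti7_8 : tileCk (nat_lit 61) (nat_lit 17) (nat_lit 2) (nat_lit 8) (nat_lit 33) (nat_lit 11) (nat_lit 19) ZL7_8 CL7 = true := by decide +kernel
def zl7_8 : zlOK (nat_lit 33) ZL7_8 = true := by decide +kernel
def tc7_0 : tiCov (nat_lit 1) (nat_lit 0) ZZ7 C7_0 = true := by decide +kernel
def tc7_1 : tiCov (nat_lit 1) (nat_lit 1) ZZ7 C7_1 = true := by decide +kernel
def tc7_2 : tiCov (nat_lit 1) (nat_lit 2) ZZ7 C7_2 = true := by decide +kernel
def tc7_3 : tiCov (nat_lit 1) (nat_lit 3) ZZ7 C7_3 = true := by decide +kernel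
def tc7_4 : tiCov (nat_lit 1) (nat_lit 4) ZZ7 C7_4 = true := by decide +kernel
def tc7_5 : tiCov (nat_lit 1) (nat_lit 5) ZZ7 C7_5 = true := by decide +kernel
def tc7_6 : tiCov (nat_lit 1) (nat_lit 6) ZZ7 C7_6 = true := by decide +kernel
def tc7_7 : tiCov (nat_lit 1) (nat_lit 7) ZZ7 C7_7 = true := by decide +kernel
def tc7_8 : tiCov (nat_lit 1) (nat_lit 8) ZZ7 C7_8 = true := by decide +kernel
def tc7_13 : tiCov (nat_lit 1) (nat_lit 13) ZZ7 C7_13 = true := by decide +kernel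
def tc7_14 : tiCov (nat_lit 1) (nat_lit 14) ZZ7 C7_14 = true := by decide +kernel
def tc7_15 : tiCov (nat_lit 1) (nat_lit 15) ZZ7 C7_15 = true := by decide +kernel
def tc7_16 : tiCov (nat_lit 1) (nat_lit 16) ZZ7 C7_16 = true := by decide +kernel
def tc7_17 : tiCov (nat_lit 1) (nat_lit 17) ZZ7 C7_17 = true := by decide +kernel
def wf8_0 : wfC (nat_lit 18) (nat_lit 7) C8_0 = true := by decide +kernel
def rf8_0 : rfCk (nat_lit 61) (nat_lit 17) (nat_lit 18) (nat_lit 7) (nat_lit 9) (nat_lit 0) (nat_lit 0) TL8 CL7 CL8 = true := by decide +kernel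
def st8_0_0 : starCk (nat_lit 18) (nat_lit 7) (nat_lit 1) (nat_lit 3) (nat_lit 7) (nat_lit 0) (nat_lit 256) C8_0 = true := by decide +kernel
def sc8_0 : stCov (nat_lit 2) (nat_lit 0) (Rl.cons (nat_lit 0) (nat_lit 7) Rl.nil) C8_0 = true := by decide +kernel
def wf8_1 : wfC (nat_lit 18) (nat_lit 7) C8_1 = true := by decide +kernel
def rf8_1 : rfCk (nat_lit 61) (nat_lit 17) (nat_lit 18) (nat_lit 7) (nat_lit 9) (nat_lit 0) (nat_lit 1) TL8 CL7 CL8 = true := by decide +kernel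
def st8_1_0 : starCk (nat_lit 18) (nat_lit 7) (nat_lit 1) (nat_lit 3) (nat_lit 1) (nat_lit 6) (nat_lit 256) C8_1 = true := by decide +kernel
def sc8_1 : stCov (nat_lit 2) (nat_lit 6) (Rl.cons (nat_lit 6) (nat_lit 1) Rl.nil) C8_1 = true := by decide +kernel
def wf8_2 : wfC (nat_lit 18) (nat_lit 7) C8_2 = true := by decide +kernel
def rf8_2 : rfCk (nat_lit 61) (nat_lit 17) (nat_lit 18) (nat_lit 7) (nat_lit 9) (nat_lit 0) (nat_lit 2) TL8 CL7 CL8 = true := by decide +kernel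
def st8_2_0 : starCk (nat_lit 18) (nat_lit 7) (nat_lit 1) (nat_lit 3) (nat_lit 1) (nat_lit 1) (nat_lit 1) C8_2 = true := by decide +kernel
def sc8_2 : stCov (nat_lit 0) (nat_lit 1) (Rl.cons (nat_lit 1) (nat_lit 1) Rl.nil) C8_2 = true := by decide +kernel
def wf8_3 : wfC (nat_lit 18) (nat_lit 7) C8_3 = true := by decide +kernel
def rf8_3 : rfCk (nat_lit 61) (nat_lit 17) (nat_lit 18) (nat_lit 7) (nat_lit 9) (nat_lit 0) (nat_lit 3) TL8 CL7 CL8 = true := by decide +kernel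
def sc8_3 : stCov (nat_lit 0) (nat_lit 0) Rl.nil C8_3 = true := by decide +kernel
def wf8_4 : wfC (nat_lit 18) (nat_lit 7) C8_4 = true := by decide +kernel
def rf8_4 : rfCk (nat_lit 61) (nat_lit 17) (nat_lit 18) (nat_lit 7) (nat_lit 9) (nat_lit 0) (nat_lit 4) TL8 CL7 CL8 = true := by decide +kernel
def st8_4_0 : starCk (nat_lit 18) (nat_lit 7) (nat_lit 1) (nat_lit 3) (nat_lit 13) (nat_lit 27) (nat_lit 16) C8_4 = true := by decide +kernel
def sc8_4 : stCov (nat_lit 1) (nat_lit 27) (Rl.cons (nat_lit 27) (nat_lit 13) Rl.nil) C8_4 = true := by decide +kernel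
def wf8_5 : wfC (nat_lit 18) (nat_lit 7) C8_5 = true := by decide +kernel
def rf8_5 : rfCk (nat_lit 61) (nat_lit 17) (nat_lit 18) (nat_lit 7) (nat_lit 9) (nat_lit 0) (nat_lit 5) TL8 CL7 CL8 = true := by decide +kernel
def st8_5_0 : starCk (nat_lit 18) (nat_lit 7) (nat_lit 1) (nat_lit 3) (nat_lit 7) (nat_lit 62) (nat_lit 256) C8_5 = true := by decide +kernel
def sc8_5 : stCov (nat_lit 2) (nat_lit 62) (Rl.cons (nat_lit 62) (nat_lit 7) Rl.nil) C8_5 = true := by decide +kernel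
def wf8_7 : wfC (nat_lit 18) (nat_lit 7) C8_7 = true := by decide +kernel
def rf8_7 : rfCk (nat_lit 61) (nat_lit 17) (nat_lit 18) (nat_lit 7) (nat_lit 9) (nat_lit 0) (nat_lit 7) TL8 CL7 CL8 = true := by decide +kernel
def st8_7_0 : starCk (nat_lit 18) (nat_lit 7) (nat_lit 1) (nat_lit 3) (nat_lit 3) (nat_lit 9) (nat_lit 16) C8_7 = true := by decide +kernel
def sc8_7 : stCov (nat_lit 1) (nat_lit 9) (Rl.cons (nat_lit 9) (nat_lit 3) Rl.nil) C8_7 = true := by decide +kernel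
def wf8_13 : wfC (nat_lit 18) (nat_lit 7) C8_13 = true := by decide +kernel
def rf8_13 : rfCk (nat_lit 61) (nat_lit 17) (nat_lit 18) (nat_lit 7) (nat_lit 9) (nat_lit 0) (nat_lit 13) TL8 CL7 CL8 = true := by decide +kernel
def st8_13_0 : starCk (nat_lit 18) (nat_lit 7) (nat_lit 1) (nat_lit 3) (nat_lit 36) (nat_lit 61) (nat_lit 4096) C8_13 = true := by decide +kernel
def sc8_13 : stCov (nat_lit 3) (nat_lit 61) (Rl.cons (nat_lit 61) (nat_lit 36) Rl.nil) C8_13 = true := by decide +kernel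
def wf8_14 : wfC (nat_lit 18) (nat_lit 7) C8_14 = true := by decide +kernel
def rf8_14 : rfCk (nat_lit 61) (nat_lit 17) (nat_lit 18) (nat_lit 7) (nat_lit 9) (nat_lit 0) (nat_lit 14) TL8 CL7 CL8 = true := by decide +kernel
def st8_14_0 : starCk (nat_lit 18) (nat_lit 7) (nat_lit 1) (nat_lit 3) (nat_lit 10) (nat_lit 20) (nat_lit 16) C8_14 = true := by decide +kernel
def sc8_14 : stCov (nat_lit 1) (nat_lit 20) (Rl.cons (nat_lit 20) (nat_lit 10) Rl.nil) C8_14 = true := by decide +kernel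
def wf8_15 : wfC (nat_lit 18) (nat_lit 7) C8_15 = true := by decide +kernel
def rf8_15 : rfCk (nat_lit 61) (nat_lit 17) (nat_lit 18) (nat_lit 7) (nat_lit 9) (nat_lit 0) (nat_lit 15) TL8 CL7 CL8 = true := by decide +kernel
def st8_15_0 : starCk (nat_lit 18) (nat_lit 7) (nat_lit 1) (nat_lit 3) (nat_lit 24) (nat_lit 74) (nat_lit 4096) C8_15 = true := by decide +kernel
def sc8_15 : stCov (nat_lit 3) (nat_lit 74) (Rl.cons (nat_lit 74) (nat_lit 24) Rl.nil) C8_15 = true := by decide +kernel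
def wf8_16 : wfC (nat_lit 18) (nat_lit 7) C8_16 = true := by decide +kernel
def rf8_16 : rfCk (nat_lit 61) (nat_lit 17) (nat_lit 18) (nat_lit 7) (nat_lit 9) (nat_lit 0) (nat_lit 16) TL8 CL7 CL8 = true := by decide +kernel
def st8_16_0 : starCk (nat_lit 18) (nat_lit 7) (nat_lit 1) (nat_lit 3) (nat_lit 2) (nat_lit 8) (nat_lit 256) C8_16 = true := by decide +kernel
def sc8_16 : stCov (nat_lit 2) (nat_lit 8) (Rl.cons (nat_lit 8) (nat_lit 2) Rl.nil) C8_16 = true := by decide +kernel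
def wf8_17 : wfC (nat_lit 18) (nat_lit 7) C8_17 = true := by decide +kernel
def rf8_17 : rfCk (nat_lit 61) (nat_lit 17) (nat_lit 18) (nat_lit 7) (nat_lit 9) (nat_lit 0) (nat_lit 17) TL8 CL7 CL8 = true := by decide +kernel
def st8_17_0 : starCk (nat_lit 18) (nat_lit 7) (nat_lit 1) (nat_lit 3) (nat_lit 1) (nat_lit 5) (nat_lit 16) C8_17 = true := by decide +kernel
def sc8_17 : stCov (nat_lit 1) (nat_lit 5) (Rl.cons (nat_lit 5) (nat_lit 1) Rl.nil) C8_17 = true := by decide +kernel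
def ti8_0 : tileCk (nat_lit 18) (nat_lit 7) (nat_lit 2) (nat_lit 3) (nat_lit 31) (nat_lit 11) (nat_lit 19) ZL8_0 CL8 = true := by decide +kernel
def zl8_0 : zlOK (nat_lit 31) ZL8_0 = true := by decide +kernel
def ti8_1 : tileCk (nat_lit 18) (nat_lit 7) (nat_lit 2) (nat_lit 3) (nat_lit 4) (nat_lit 11) (nat_lit 19) ZL8_1 CL8 = true := by decide +kernel
def zl8_1 : zlOK (nat_lit 4) ZL8_1 = true := by decide +kernel
def ti8_2 : tileCk (nat_lit 18) (nat_lit 7) (nat_lit 2) (nat_lit 3) (nat_lit 6) (nat_lit 11) (nat_lit 19) ZL8_2 CL8 = true := by decide +kernel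
def zl8_2 : zlOK (nat_lit 6) ZL8_2 = true := by decide +kernel
def ti8_3 : tileCk (nat_lit 18) (nat_lit 7) (nat_lit 2) (nat_lit 3) (nat_lit 11) (nat_lit 11) (nat_lit 19) ZL8_3 CL8 = true := by decide +kernel
def zl8_3 : zlOK (nat_lit 11) ZL8_3 = true := by decide +kernel
def ti8_4 : tileCk (nat_lit 18) (nat_lit 7) (nat_lit 2) (nat_lit 3) (nat_lit 1) (nat_lit 11) (nat_lit 19) ZL8_4 CL8 = true := by decide +kernel
def zl8_4 : zlOK (nat_lit 1) ZL8_4 = true := by decide +kernel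
def ti8_5 : tileCk (nat_lit 18) (nat_lit 7) (nat_lit 2) (nat_lit 3) (nat_lit 1) (nat_lit 11) (nat_lit 19) ZL8_5 CL8 = true := by decide +kernel
def zl8_5 : zlOK (nat_lit 1) ZL8_5 = true := by decide +kernel
def ti8_6 : tileCk (nat_lit 18) (nat_lit 7) (nat_lit 2) (nat_lit 3) (nat_lit 7) (nat_lit 11) (nat_lit 19) ZL8_6 CL8 = true := by decide +kernel
def zl8_6 : zlOK (nat_lit 7) ZL8_6 = true := by decide +kernel
def ti8_7 : tileCk (nat_lit 18) (nat_lit 7) (nat_lit 2) (nat_lit 3) (nat_lit 2) (nat_lit 11) (nat_lit 19) ZL8_7 CL8 = true := by decide +kernel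
def zl8_7 : zlOK (nat_lit 2) ZL8_7 = true := by decide +kernel
def tc8_0 : tiCov (nat_lit 1) (nat_lit 0) ZZ8 C8_0 = true := by decide +kernel
def tc8_1 : tiCov (nat_lit 1) (nat_lit 1) ZZ8 C8_1 = true := by decide +kernel
def tc8_2 : tiCov (nat_lit 1) (nat_lit 2) ZZ8 C8_2 = true := by decide +kernel
def tc8_3 : tiCov (nat_lit 1) (nat_lit 3) ZZ8 C8_3 = true := by decide +kernel
def tc8_4 : tiCov (nat_lit 1) (nat_lit 4) ZZ8 C8_4 = true := by decide +kernel
def tc8_5 : tiCov (nat_lit 1) (nat_lit 5) ZZ8 C8_5 = true := by decide +kernel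
def tc8_7 : tiCov (nat_lit 1) (nat_lit 7) ZZ8 C8_7 = true := by decide +kernel
def tc8_13 : tiCov (nat_lit 1) (nat_lit 13) ZZ8 C8_13 = true := by decide +kernel
def tc8_14 : tiCov (nat_lit 1) (nat_lit 14) ZZ8 C8_14 = true := by decide +kernel
def tc8_15 : tiCov (nat_lit 1) (nat_lit 15) ZZ8 C8_15 = true := by decide +kernel
def tc8_16 : tiCov (nat_lit 1) (nat_lit 16) ZZ8 C8_16 = true := by decide +kernel
def tc8_17 : tiCov (nat_lit 1) (nat_lit 17) ZZ8 C8_17 = true := by decide +kernel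
def de8_0 : deadCk (nat_lit 18) (nat_lit 7) C8_0 = true := by decide +kernel
def de8_1 : deadCk (nat_lit 18) (nat_lit 7) C8_1 = true := by decide +kernel
def de8_2 : deadCk (nat_lit 18) (nat_lit 7) C8_2 = true := by decide +kernel
def de8_3 : deadCk (nat_lit 18) (nat_lit 7) C8_3 = true := by decide +kernel
def de8_4 : deadCk (nat_lit 18) (nat_lit 7) C8_4 = true := by decide +kernel
def de8_5 : deadCk (nat_lit 18) (nat_lit 7) C8_5 = true := by decide +kernel
def de8_7 : deadCk (nat_lit 18) (nat_lit 7) C8_7 = true := by decide +kernel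
def de8_13 : deadCk (nat_lit 18) (nat_lit 7) C8_13 = true := by decide +kernel
def de8_14 : deadCk (nat_lit 18) (nat_lit 7) C8_14 = true := by decide +kernel
def de8_15 : deadCk (nat_lit 18) (nat_lit 7) C8_15 = true := by decide +kernel
def de8_16 : deadCk (nat_lit 18) (nat_lit 7) C8_16 = true := by decide +kernel
def de8_17 : deadCk (nat_lit 18) (nat_lit 7) C8_17 = true := by decide +kernel
def wf1_9 : wfC (nat_lit 60) (nat_lit 5) C1_9 = true := by decide +kernel
def wf1_10 : wfC (nat_lit 60) (nat_lit 5) C1_10 = true := by decide +kernel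
def wf1_11 : wfC (nat_lit 60) (nat_lit 5) C1_11 = true := by decide +kernel
def wf1_12 : wfC (nat_lit 60) (nat_lit 5) C1_12 = true := by decide +kernel
def wf1_18 : wfC (nat_lit 60) (nat_lit 5) C1_18 = true := by decide +kernel
def rf1_9 : rfCk (nat_lit 60) (nat_lit 5) (nat_lit 60) (nat_lit 5) (nat_lit 1) (nat_lit 262144) (nat_lit 9) TL1 CL0 CL1 = true := by decide +kernel
def rf1_10 : rfCk (nat_lit 60) (nat_lit 5) (nat_lit 60) (nat_lit 5) (nat_lit 1) (nat_lit 262144) (nat_lit 10) TL1 CL0 CL1 = true := by decide +kernel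
def rf1_11 : rfCk (nat_lit 60) (nat_lit 5) (nat_lit 60) (nat_lit 5) (nat_lit 1) (nat_lit 262144) (nat_lit 11) TL1 CL0 CL1 = true := by decide +kernel
def rf1_12 : rfCk (nat_lit 60) (nat_lit 5) (nat_lit 60) (nat_lit 5) (nat_lit 1) (nat_lit 262144) (nat_lit 12) TL1 CL0 CL1 = true := by decide +kernel
def rf1_18 : rfCk (nat_lit 60) (nat_lit 5) (nat_lit 60) (nat_lit 5) (nat_lit 1) (nat_lit 262144) (nat_lit 18) TL1 CL0 CL1 = true := by decide +kernel
def sc1_9 : stCov (nat_lit 0) (nat_lit 0) Rl.nil C1_9 = true := by decide +kernel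
def sc1_10 : stCov (nat_lit 0) (nat_lit 0) Rl.nil C1_10 = true := by decide +kernel
def sc1_11 : stCov (nat_lit 0) (nat_lit 0) Rl.nil C1_11 = true := by decide +kernel
def sc1_12 : stCov (nat_lit 0) (nat_lit 0) Rl.nil C1_12 = true := by decide +kernel
def sc1_18 : stCov (nat_lit 0) (nat_lit 0) Rl.nil C1_18 = true := by decide +kernel
def tc1_9 : tiCov (nat_lit 1) (nat_lit 9) ZZ1 C1_9 = true := by decide +kernel
def tc1_10 : tiCov (nat_lit 1) (nat_lit 10) ZZ1 C1_10 = true := by decide +kernel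
def tc1_11 : tiCov (nat_lit 1) (nat_lit 11) ZZ1 C1_11 = true := by decide +kernel
def tc1_12 : tiCov (nat_lit 1) (nat_lit 12) ZZ1 C1_12 = true := by decide +kernel
def tc1_18 : tiCov (nat_lit 1) (nat_lit 18) ZZ1 C1_18 = true := by decide +kernel
def wf2_9 : wfC (nat_lit 61) (nat_lit 2) C2_9 = true := by decide +kernel
def wf2_10 : wfC (nat_lit 61) (nat_lit 2) C2_10 = true := by decide +kernel
def wf2_11 : wfC (nat_lit 61) (nat_lit 2) C2_11 = true := by decide +kernel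
def wf2_12 : wfC (nat_lit 61) (nat_lit 2) C2_12 = true := by decide +kernel
def wf2_18 : wfC (nat_lit 61) (nat_lit 2) C2_18 = true := by decide +kernel
def rf2_9 : rfCk (nat_lit 60) (nat_lit 5) (nat_lit 61) (nat_lit 2) (nat_lit 4) (nat_lit 524288) (nat_lit 9) TL2 CL1 CL2 = true := by decide +kernel
def rf2_10 : rfCk (nat_lit 60) (nat_lit 5) (nat_lit 61) (nat_lit 2) (nat_lit 4) (nat_lit 524288) (nat_lit 10) TL2 CL1 CL2 = true := by decide +kernel
def rf2_11 : rfCk (nat_lit 60) (nat_lit 5) (nat_lit 61) (nat_lit 2) (nat_lit 4) (nat_lit 524288) (nat_lit 11) TL2 CL1 CL2 = true := by decide +kernel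
def rf2_12 : rfCk (nat_lit 60) (nat_lit 5) (nat_lit 61) (nat_lit 2) (nat_lit 4) (nat_lit 524288) (nat_lit 12) TL2 CL1 CL2 = true := by decide +kernel
def rf2_18 : rfCk (nat_lit 60) (nat_lit 5) (nat_lit 61) (nat_lit 2) (nat_lit 4) (nat_lit 524288) (nat_lit 18) TL2 CL1 CL2 = true := by decide +kernel
def sc2_0 : stCov (nat_lit 2) (nat_lit 0) (Rl.cons (nat_lit 0) (nat_lit 176) Rl.nil) C2_0 = true := by decide +kernel
def sc2_1 : stCov (nat_lit 1) (nat_lit 0) (Rl.cons (nat_lit 0) (nat_lit 168) Rl.nil) C2_1 = true := by decide +kernel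
def sc2_2 : stCov (nat_lit 0) (nat_lit 0) (Rl.cons (nat_lit 0) (nat_lit 630) Rl.nil) C2_2 = true := by decide +kernel
def sc2_3 : stCov (nat_lit 0) (nat_lit 0) (Rl.cons (nat_lit 0) (nat_lit 148) Rl.nil) C2_3 = true := by decide +kernel
def sc2_4 : stCov (nat_lit 0) (nat_lit 0) (Rl.cons (nat_lit 0) (nat_lit 744) Rl.nil) C2_4 = true := by decide +kernel
def sc2_5 : stCov (nat_lit 0) (nat_lit 0) (Rl.cons (nat_lit 0) (nat_lit 497) Rl.nil) C2_5 = true := by decide +kernel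
def sc2_6 : stCov (nat_lit 0) (nat_lit 0) (Rl.cons (nat_lit 0) (nat_lit 176) Rl.nil) C2_6 = true := by decide +kernel
def sc2_7 : stCov (nat_lit 0) (nat_lit 0) (Rl.cons (nat_lit 0) (nat_lit 180) Rl.nil) C2_7 = true := by decide +kernel
def sc2_8 : stCov (nat_lit 0) (nat_lit 0) (Rl.cons (nat_lit 0) (nat_lit 157) Rl.nil) C2_8 = true := by decide +kernel
def sc2_9 : stCov (nat_lit 0) (nat_lit 0) Rl.nil C2_9 = true := by decide +kernel
def sc2_10 : stCov (nat_lit 0) (nat_lit 0) Rl.nil C2_10 = true := by decide +kernel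
def sc2_11 : stCov (nat_lit 0) (nat_lit 0) Rl.nil C2_11 = true := by decide +kernel
def sc2_12 : stCov (nat_lit 0) (nat_lit 0) Rl.nil C2_12 = true := by decide +kernel
def sc2_13 : stCov (nat_lit 2) (nat_lit 0) (Rl.cons (nat_lit 0) (nat_lit 1532) Rl.nil) C2_13 = true := by decide +kernel
def sc2_14 : stCov (nat_lit 0) (nat_lit 0) (Rl.cons (nat_lit 0) (nat_lit 3678) Rl.nil) C2_14 = true := by decide +kernel
def sc2_15 : stCov (nat_lit 0) (nat_lit 0) (Rl.cons (nat_lit 0) (nat_lit 1897) Rl.nil) C2_15 = true := by decide +kernel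
def sc2_16 : stCov (nat_lit 0) (nat_lit 0) (Rl.cons (nat_lit 0) (nat_lit 1340) Rl.nil) C2_16 = true := by decide +kernel
def sc2_17 : stCov (nat_lit 0) (nat_lit 0) (Rl.cons (nat_lit 0) (nat_lit 855) Rl.nil) C2_17 = true := by decide +kernel
def sc2_18 : stCov (nat_lit 0) (nat_lit 0) Rl.nil C2_18 = true := by decide +kernel
def tc2_9 : tiCov (nat_lit 1) (nat_lit 9) ZZ2 C2_9 = true := by decide +kernel
def tc2_10 : tiCov (nat_lit 1) (nat_lit 10) ZZ2 C2_10 = true := by decide +kernel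
def tc2_11 : tiCov (nat_lit 1) (nat_lit 11) ZZ2 C2_11 = true := by decide +kernel
def tc2_12 : tiCov (nat_lit 1) (nat_lit 12) ZZ2 C2_12 = true := by decide +kernel
def tc2_18 : tiCov (nat_lit 1) (nat_lit 18) ZZ2 C2_18 = true := by decide +kernel
def wf3_9 : wfC (nat_lit 61) (nat_lit 4) C3_9 = true := by decide +kernel
def wf3_10 : wfC (nat_lit 61) (nat_lit 4) C3_10 = true := by decide +kernel
def wf3_11 : wfC (nat_lit 61) (nat_lit 4) C3_11 = true := by decide +kernel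
def wf3_12 : wfC (nat_lit 61) (nat_lit 4) C3_12 = true := by decide +kernel
def wf3_18 : wfC (nat_lit 61) (nat_lit 4) C3_18 = true := by decide +kernel
def rf3_9 : rfCk (nat_lit 61) (nat_lit 2) (nat_lit 61) (nat_lit 4) (nat_lit 9) (nat_lit 0) (nat_lit 9) TL3 CL2 CL3 = true := by decide +kernel
def rf3_10 : rfCk (nat_lit 61) (nat_lit 2) (nat_lit 61) (nat_lit 4) (nat_lit 9) (nat_lit 0) (nat_lit 10) TL3 CL2 CL3 = true := by decide +kernel
def rf3_11 : rfCk (nat_lit 61) (nat_lit 2) (nat_lit 61) (nat_lit 4) (nat_lit 9) (nat_lit 0) (nat_lit 11) TL3 CL2 CL3 = true := by decide +kernel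
def rf3_12 : rfCk (nat_lit 61) (nat_lit 2) (nat_lit 61) (nat_lit 4) (nat_lit 9) (nat_lit 0) (nat_lit 12) TL3 CL2 CL3 = true := by decide +kernel
def rf3_18 : rfCk (nat_lit 61) (nat_lit 2) (nat_lit 61) (nat_lit 4) (nat_lit 9) (nat_lit 0) (nat_lit 18) TL3 CL2 CL3 = true := by decide +kernel
def sc3_9 : stCov (nat_lit 0) (nat_lit 0) Rl.nil C3_9 = true := by decide +kernel
def sc3_10 : stCov (nat_lit 0) (nat_lit 0) Rl.nil C3_10 = true := by decide +kernel
def sc3_11 : stCov (nat_lit 0) (nat_lit 0) Rl.nil C3_11 = true := by decide +kernel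
def sc3_12 : stCov (nat_lit 0) (nat_lit 0) Rl.nil C3_12 = true := by decide +kernel
def sc3_18 : stCov (nat_lit 0) (nat_lit 0) Rl.nil C3_18 = true := by decide +kernel
def tc3_9 : tiCov (nat_lit 1) (nat_lit 9) ZZ3 C3_9 = true := by decide +kernel
def tc3_10 : tiCov (nat_lit 1) (nat_lit 10) ZZ3 C3_10 = true := by decide +kernel
def tc3_11 : tiCov (nat_lit 1) (nat_lit 11) ZZ3 C3_11 = true := by decide +kernel
def tc3_12 : tiCov (nat_lit 1) (nat_lit 12) ZZ3 C3_12 = true := by decide +kernel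
def tc3_18 : tiCov (nat_lit 1) (nat_lit 18) ZZ3 C3_18 = true := by decide +kernel
def wf4_9 : wfC (nat_lit 61) (nat_lit 5) C4_9 = true := by decide +kernel
def wf4_10 : wfC (nat_lit 61) (nat_lit 5) C4_10 = true := by decide +kernel
def wf4_11 : wfC (nat_lit 61) (nat_lit 5) C4_11 = true := by decide +kernel
def wf4_12 : wfC (nat_lit 61) (nat_lit 5) C4_12 = true := by decide +kernel
def wf4_18 : wfC (nat_lit 61) (nat_lit 5) C4_18 = true := by decide +kernel
def rf4_9 : rfCk (nat_lit 61) (nat_lit 4) (nat_lit 61) (nat_lit 5) (nat_lit 0) (nat_lit 1048576) (nat_lit 9) TL4 CL3 CL4 = true := by decide +kernel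
def rf4_10 : rfCk (nat_lit 61) (nat_lit 4) (nat_lit 61) (nat_lit 5) (nat_lit 0) (nat_lit 1048576) (nat_lit 10) TL4 CL3 CL4 = true := by decide +kernel
def rf4_11 : rfCk (nat_lit 61) (nat_lit 4) (nat_lit 61) (nat_lit 5) (nat_lit 0) (nat_lit 1048576) (nat_lit 11) TL4 CL3 CL4 = true := by decide +kernel
def rf4_12 : rfCk (nat_lit 61) (nat_lit 4) (nat_lit 61) (nat_lit 5) (nat_lit 0) (nat_lit 1048576) (nat_lit 12) TL4 CL3 CL4 = true := by decide +kernel
def rf4_18 : rfCk (nat_lit 61) (nat_lit 4) (nat_lit 61) (nat_lit 5) (nat_lit 0) (nat_lit 1048576) (nat_lit 18) TL4 CL3 CL4 = true := by decide +kernel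
def sc4_9 : stCov (nat_lit 0) (nat_lit 0) Rl.nil C4_9 = true := by decide +kernel
def sc4_10 : stCov (nat_lit 0) (nat_lit 0) Rl.nil C4_10 = true := by decide +kernel
def sc4_11 : stCov (nat_lit 0) (nat_lit 0) Rl.nil C4_11 = true := by decide +kernel
def sc4_12 : stCov (nat_lit 0) (nat_lit 0) Rl.nil C4_12 = true := by decide +kernel
def sc4_18 : stCov (nat_lit 0) (nat_lit 0) Rl.nil C4_18 = true := by decide +kernel
def tc4_9 : tiCov (nat_lit 1) (nat_lit 9) ZZ4 C4_9 = true := by decide +kernel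
def tc4_10 : tiCov (nat_lit 1) (nat_lit 10) ZZ4 C4_10 = true := by decide +kernel
def tc4_11 : tiCov (nat_lit 1) (nat_lit 11) ZZ4 C4_11 = true := by decide +kernel
def tc4_12 : tiCov (nat_lit 1) (nat_lit 12) ZZ4 C4_12 = true := by decide +kernel
def tc4_18 : tiCov (nat_lit 1) (nat_lit 18) ZZ4 C4_18 = true := by decide +kernel
def wf5_9 : wfC (nat_lit 61) (nat_lit 3) C5_9 = true := by decide +kernel
def wf5_10 : wfC (nat_lit 61) (nat_lit 3) C5_10 = true := by decide +kernel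
def wf5_11 : wfC (nat_lit 61) (nat_lit 3) C5_11 = true := by decide +kernel
def wf5_12 : wfC (nat_lit 61) (nat_lit 3) C5_12 = true := by decide +kernel
def wf5_18 : wfC (nat_lit 61) (nat_lit 3) C5_18 = true := by decide +kernel
def rf5_9 : rfCk (nat_lit 61) (nat_lit 5) (nat_lit 61) (nat_lit 3) (nat_lit 3) (nat_lit 2097152) (nat_lit 9) TL5 CL4 CL5 = true := by decide +kernel
def rf5_10 : rfCk (nat_lit 61) (nat_lit 5) (nat_lit 61) (nat_lit 3) (nat_lit 3) (nat_lit 2097152) (nat_lit 10) TL5 CL4 CL5 = true := by decide +kernel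
def rf5_11 : rfCk (nat_lit 61) (nat_lit 5) (nat_lit 61) (nat_lit 3) (nat_lit 3) (nat_lit 2097152) (nat_lit 11) TL5 CL4 CL5 = true := by decide +kernel
def rf5_12 : rfCk (nat_lit 61) (nat_lit 5) (nat_lit 61) (nat_lit 3) (nat_lit 3) (nat_lit 2097152) (nat_lit 12) TL5 CL4 CL5 = true := by decide +kernel
def rf5_18 : rfCk (nat_lit 61) (nat_lit 5) (nat_lit 61) (nat_lit 3) (nat_lit 3) (nat_lit 2097152) (nat_lit 18) TL5 CL4 CL5 = true := by decide +kernel
def sc5_9 : stCov (nat_lit 0) (nat_lit 0) Rl.nil C5_9 = true := by decide +kernel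
def sc5_10 : stCov (nat_lit 0) (nat_lit 0) Rl.nil C5_10 = true := by decide +kernel
def sc5_11 : stCov (nat_lit 0) (nat_lit 0) Rl.nil C5_11 = true := by decide +kernel
def sc5_12 : stCov (nat_lit 0) (nat_lit 0) Rl.nil C5_12 = true := by decide +kernel
def sc5_18 : stCov (nat_lit 0) (nat_lit 0) Rl.nil C5_18 = true := by decide +kernel
def tc5_9 : tiCov (nat_lit 1) (nat_lit 9) ZZ5 C5_9 = true := by decide +kernel
def tc5_10 : tiCov (nat_lit 1) (nat_lit 10) ZZ5 C5_10 = true := by decide +kernel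
def tc5_11 : tiCov (nat_lit 1) (nat_lit 11) ZZ5 C5_11 = true := by decide +kernel
def tc5_12 : tiCov (nat_lit 1) (nat_lit 12) ZZ5 C5_12 = true := by decide +kernel
def tc5_18 : tiCov (nat_lit 1) (nat_lit 18) ZZ5 C5_18 = true := by decide +kernel
def wf6_9 : wfC (nat_lit 61) (nat_lit 11) C6_9 = true := by decide +kernel
def wf6_10 : wfC (nat_lit 61) (nat_lit 11) C6_10 = true := by decide +kernel
def wf6_11 : wfC (nat_lit 61) (nat_lit 11) C6_11 = true := by decide +kernel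
def wf6_12 : wfC (nat_lit 61) (nat_lit 11) C6_12 = true := by decide +kernel
def wf6_18 : wfC (nat_lit 61) (nat_lit 11) C6_18 = true := by decide +kernel
def rf6_9 : rfCk (nat_lit 61) (nat_lit 3) (nat_lit 61) (nat_lit 11) (nat_lit 9) (nat_lit 0) (nat_lit 9) TL6 CL5 CL6 = true := by decide +kernel
def rf6_10 : rfCk (nat_lit 61) (nat_lit 3) (nat_lit 61) (nat_lit 11) (nat_lit 9) (nat_lit 0) (nat_lit 10) TL6 CL5 CL6 = true := by decide +kernel
def rf6_11 : rfCk (nat_lit 61) (nat_lit 3) (nat_lit 61) (nat_lit 11) (nat_lit 9) (nat_lit 0) (nat_lit 11) TL6 CL5 CL6 = true := by decide +kernel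
def rf6_12 : rfCk (nat_lit 61) (nat_lit 3) (nat_lit 61) (nat_lit 11) (nat_lit 9) (nat_lit 0) (nat_lit 12) TL6 CL5 CL6 = true := by decide +kernel
def rf6_18 : rfCk (nat_lit 61) (nat_lit 3) (nat_lit 61) (nat_lit 11) (nat_lit 9) (nat_lit 0) (nat_lit 18) TL6 CL5 CL6 = true := by decide +kernel
def sc6_9 : stCov (nat_lit 0) (nat_lit 0) Rl.nil C6_9 = true := by decide +kernel
def sc6_10 : stCov (nat_lit 0) (nat_lit 0) Rl.nil C6_10 = true := by decide +kernel
def sc6_11 : stCov (nat_lit 0) (nat_lit 0) Rl.nil C6_11 = true := by decide +kernel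
def sc6_12 : stCov (nat_lit 0) (nat_lit 0) Rl.nil C6_12 = true := by decide +kernel
def sc6_18 : stCov (nat_lit 0) (nat_lit 0) Rl.nil C6_18 = true := by decide +kernel
def tc6_9 : tiCov (nat_lit 1) (nat_lit 9) ZZ6 C6_9 = true := by decide +kernel
def tc6_10 : tiCov (nat_lit 1) (nat_lit 10) ZZ6 C6_10 = true := by decide +kernel
def tc6_11 : tiCov (nat_lit 1) (nat_lit 11) ZZ6 C6_11 = true := by decide +kernel
def tc6_12 : tiCov (nat_lit 1) (nat_lit 12) ZZ6 C6_12 = true := by decide +kernel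
def tc6_18 : tiCov (nat_lit 1) (nat_lit 18) ZZ6 C6_18 = true := by decide +kernel
def wf7_9 : wfC (nat_lit 61) (nat_lit 17) C7_9 = true := by decide +kernel
def wf7_10 : wfC (nat_lit 61) (nat_lit 17) C7_10 = true := by decide +kernel
def wf7_11 : wfC (nat_lit 61) (nat_lit 17) C7_11 = true := by decide +kernel
def wf7_12 : wfC (nat_lit 61) (nat_lit 17) C7_12 = true := by decide +kernel
def wf7_18 : wfC (nat_lit 61) (nat_lit 17) C7_18 = true := by decide +kernel
def rf7_9 : rfCk (nat_lit 61) (nat_lit 11) (nat_lit 61) (nat_lit 17) (nat_lit 9) (nat_lit 0) (nat_lit 9) TL7 CL6 CL7 = true := by decide +kernel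
def rf7_10 : rfCk (nat_lit 61) (nat_lit 11) (nat_lit 61) (nat_lit 17) (nat_lit 9) (nat_lit 0) (nat_lit 10) TL7 CL6 CL7 = true := by decide +kernel
def rf7_11 : rfCk (nat_lit 61) (nat_lit 11) (nat_lit 61) (nat_lit 17) (nat_lit 9) (nat_lit 0) (nat_lit 11) TL7 CL6 CL7 = true := by decide +kernel
def rf7_12 : rfCk (nat_lit 61) (nat_lit 11) (nat_lit 61) (nat_lit 17) (nat_lit 9) (nat_lit 0) (nat_lit 12) TL7 CL6 CL7 = true := by decide +kernel
def rf7_18 : rfCk (nat_lit 61) (nat_lit 11) (nat_lit 61) (nat_lit 17) (nat_lit 9) (nat_lit 0) (nat_lit 18) TL7 CL6 CL7 = true := by decide +kernel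
def sc7_9 : stCov (nat_lit 0) (nat_lit 0) Rl.nil C7_9 = true := by decide +kernel
def sc7_10 : stCov (nat_lit 0) (nat_lit 0) Rl.nil C7_10 = true := by decide +kernel
def sc7_11 : stCov (nat_lit 0) (nat_lit 0) Rl.nil C7_11 = true := by decide +kernel
def sc7_12 : stCov (nat_lit 0) (nat_lit 0) Rl.nil C7_12 = true := by decide +kernel
def sc7_18 : stCov (nat_lit 0) (nat_lit 0) Rl.nil C7_18 = true := by decide +kernel
def tc7_9 : tiCov (nat_lit 1) (nat_lit 9) ZZ7 C7_9 = true := by decide +kernel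
def tc7_10 : tiCov (nat_lit 1) (nat_lit 10) ZZ7 C7_10 = true := by decide +kernel
def tc7_11 : tiCov (nat_lit 1) (nat_lit 11) ZZ7 C7_11 = true := by decide +kernel
def tc7_12 : tiCov (nat_lit 1) (nat_lit 12) ZZ7 C7_12 = true := by decide +kernel
def tc7_18 : tiCov (nat_lit 1) (nat_lit 18) ZZ7 C7_18 = true := by decide +kernel
def wf8_6 : wfC (nat_lit 18) (nat_lit 7) C8_6 = true := by decide +kernel
def wf8_8 : wfC (nat_lit 18) (nat_lit 7) C8_8 = true := by decide +kernel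
def wf8_9 : wfC (nat_lit 18) (nat_lit 7) C8_9 = true := by decide +kernel
def wf8_10 : wfC (nat_lit 18) (nat_lit 7) C8_10 = true := by decide +kernel
def wf8_11 : wfC (nat_lit 18) (nat_lit 7) C8_11 = true := by decide +kernel
def wf8_12 : wfC (nat_lit 18) (nat_lit 7) C8_12 = true := by decide +kernel
def wf8_18 : wfC (nat_lit 18) (nat_lit 7) C8_18 = true := by decide +kernel
def rf8_6 : rfCk (nat_lit 61) (nat_lit 17) (nat_lit 18) (nat_lit 7) (nat_lit 9) (nat_lit 0) (nat_lit 6) TL8 CL7 CL8 = true := by decide +kernel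
def rf8_8 : rfCk (nat_lit 61) (nat_lit 17) (nat_lit 18) (nat_lit 7) (nat_lit 9) (nat_lit 0) (nat_lit 8) TL8 CL7 CL8 = true := by decide +kernel
def rf8_9 : rfCk (nat_lit 61) (nat_lit 17) (nat_lit 18) (nat_lit 7) (nat_lit 9) (nat_lit 0) (nat_lit 9) TL8 CL7 CL8 = true := by decide +kernel
def rf8_10 : rfCk (nat_lit 61) (nat_lit 17) (nat_lit 18) (nat_lit 7) (nat_lit 9) (nat_lit 0) (nat_lit 10) TL8 CL7 CL8 = true := by decide +kernel
def rf8_11 : rfCk (nat_lit 61) (nat_lit 17) (nat_lit 18) (nat_lit 7) (nat_lit 9) (nat_lit 0) (nat_lit 11) TL8 CL7 CL8 = true := by decide +kernel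
def rf8_12 : rfCk (nat_lit 61) (nat_lit 17) (nat_lit 18) (nat_lit 7) (nat_lit 9) (nat_lit 0) (nat_lit 12) TL8 CL7 CL8 = true := by decide +kernel
def rf8_18 : rfCk (nat_lit 61) (nat_lit 17) (nat_lit 18) (nat_lit 7) (nat_lit 9) (nat_lit 0) (nat_lit 18) TL8 CL7 CL8 = true := by decide +kernel
def sc8_6 : stCov (nat_lit 0) (nat_lit 0) Rl.nil C8_6 = true := by decide +kernel
def sc8_8 : stCov (nat_lit 0) (nat_lit 0) Rl.nil C8_8 = true := by decide +kernel
def sc8_9 : stCov (nat_lit 0) (nat_lit 0) Rl.nil C8_9 = true := by decide +kernel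
def sc8_10 : stCov (nat_lit 0) (nat_lit 0) Rl.nil C8_10 = true := by decide +kernel
def sc8_11 : stCov (nat_lit 0) (nat_lit 0) Rl.nil C8_11 = true := by decide +kernel
def sc8_12 : stCov (nat_lit 0) (nat_lit 0) Rl.nil C8_12 = true := by decide +kernel
def sc8_18 : stCov (nat_lit 0) (nat_lit 0) Rl.nil C8_18 = true := by decide +kernel
def tc8_6 : tiCov (nat_lit 1) (nat_lit 6) ZZ8 C8_6 = true := by decide +kernel
def tc8_8 : tiCov (nat_lit 1) (nat_lit 8) ZZ8 C8_8 = true := by decide +kernel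
def tc8_9 : tiCov (nat_lit 1) (nat_lit 9) ZZ8 C8_9 = true := by decide +kernel
def tc8_10 : tiCov (nat_lit 1) (nat_lit 10) ZZ8 C8_10 = true := by decide +kernel
def tc8_11 : tiCov (nat_lit 1) (nat_lit 11) ZZ8 C8_11 = true := by decide +kernel
def tc8_12 : tiCov (nat_lit 1) (nat_lit 12) ZZ8 C8_12 = true := by decide +kernel
def tc8_18 : tiCov (nat_lit 1) (nat_lit 18) ZZ8 C8_18 = true := by decide +kernel
def de8_6 : deadCk (nat_lit 18) (nat_lit 7) C8_6 = true := by decide +kernel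
def de8_8 : deadCk (nat_lit 18) (nat_lit 7) C8_8 = true := by decide +kernel
def de8_9 : deadCk (nat_lit 18) (nat_lit 7) C8_9 = true := by decide +kernel
def de8_10 : deadCk (nat_lit 18) (nat_lit 7) C8_10 = true := by decide +kernel
def de8_11 : deadCk (nat_lit 18) (nat_lit 7) C8_11 = true := by decide +kernel
def de8_12 : deadCk (nat_lit 18) (nat_lit 7) C8_12 = true := by decide +kernel
def de8_18 : deadCk (nat_lit 18) (nat_lit 7) C8_18 = true := by decide +kernel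

end Pool.Agent.NNr.R11_1_3_4
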