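import Pool.Agent.NNr.R11_1_3_4.D1
import Pool.Agent.NNr.R11_1_3_4.D2

set_option linter.all false
set_option maxRecDepth 1000000
namespace Pool.Agent.NNr.R11_1_3_4

open Pool.Agent.NNe

def rf2_6 : rfCk (nat_lit 60) (nat_lit 5) (nat_lit 61) (nat_lit 2) (nat_lit 4) (nat_lit 524288) (nat_lit 6) TL2 CL1 CL2 = true := by decide +kernel
def wf2_7 : wfC (nat_lit 61) (nat_lit 2) C2_7 = true := by decide +kernel
def rf2_7 : rfCk (nat_lit 60) (nat_lit 5) (nat_lit 61) (nat_lit 2) (nat_lit 4) (nat_lit 524288) (nat_lit 7) TL2 CL1 CL2 = true := by decide +kernel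
def wf2_8 : wfC (nat_lit 61) (nat_lit 2) C2_8 = true := by decide +kernel
def rf2_8 : rfCk (nat_lit 60) (nat_lit 5) (nat_lit 61) (nat_lit 2) (nat_lit 4) (nat_lit 524288) (nat_lit 8) TL2 CL1 CL2 = true := by decide +kernel
def wf2_13 : wfC (nat_lit 61) (nat_lit 2) C2_13 = true := by decide +kernel
def rf2_13 : rfCk (nat_lit 60) (nat_lit 5) (nat_lit 61) (nat_lit 2) (nat_lit 4) (nat_lit 524288) (nat_lit 13) TL2 CL1 CL2 = true := by decide +kernel
def wf2_14 : wfC (nat_lit 61) (nat_lit 2) C2_14 = true := by decide +kernel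
def rf2_14 : rfCk (nat_lit 60) (nat_lit 5) (nat_lit 61) (nat_lit 2) (nat_lit 4) (nat_lit 524288) (nat_lit 14) TL2 CL1 CL2 = true := by decide +kernel
def wf2_15 : wfC (nat_lit 61) (nat_lit 2) C2_15 = true := by decide +kernel
def rf2_15 : rfCk (nat_lit 60) (nat_lit 5) (nat_lit 61) (nat_lit 2) (nat_lit 4) (nat_lit 524288) (nat_lit 15) TL2 CL1 CL2 = true := by decide +kernel
def wf2_16 : wfC (nat_lit 61) (nat_lit 2) C2_16 = true := by decide +kernel
def rf2_16 : rfCk (nat_lit 60) (nat_lit 5) (nat_lit 61) (nat_lit 2) (nat_lit 4) (nat_lit 524288) (nat_lit 16) TL2 CL1 CL2 = true := by decide +kernel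
def wf2_17 : wfC (nat_lit 61) (nat_lit 2) C2_17 = true := by decide +kernel
def rf2_17 : rfCk (nat_lit 60) (nat_lit 5) (nat_lit 61) (nat_lit 2) (nat_lit 4) (nat_lit 524288) (nat_lit 17) TL2 CL1 CL2 = true := by decide +kernel
def ti2_0 : tileCk (nat_lit 61) (nat_lit 2) (nat_lit 1) (nat_lit 1) (nat_lit 312) (nat_lit 11) (nat_lit 19) ZL2_0 CL2 = true := by decide +kernel
def zl2_0 : zlOK (nat_lit 312) ZL2_0 = true := by decide +kernel
def ti2_1 : tileCk (nat_lit 61) (nat_lit 2) (nat_lit 1) (nat_lit 1) (nat_lit 73) (nat_lit 11) (nat_lit 19) ZL2_1 CL2 = true := by decide +kernel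
def zl2_1 : zlOK (nat_lit 73) ZL2_1 = true := by decide +kernel

end Pool.Agent.NNr.R11_1_3_4
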