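import Pool.Agent.NNr.R11_1_3_4.D3
import Pool.Agent.NNr.R11_1_3_4.D4

set_option linter.all false
set_option maxRecDepth 1000000
namespace Pool.Agent.NNr.R11_1_3_4

open Pool.Agent.NNe

def st3_17_0 : starCk (nat_lit 61) (nat_lit 4) (nat_lit 1) (nat_lit 2) (nat_lit 36) (nat_lit 191) (nat_lit 16) C3_17 = true := by decide +kernel
def sc3_17 : stCov (nat_lit 1) (nat_lit 191) (Rl.cons (nat_lit 191) (nat_lit 36) Rl.nil) C3_17 = true := by decide +kernel
def ti3_0 : tileCk (nat_lit 61) (nat_lit 4) (nat_lit 2) (nat_lit 1) (nat_lit 254) (nat_lit 11) (nat_lit 19) ZL3_0 CL3 = true := by decide +kernel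
def zl3_0 : zlOK (nat_lit 254) ZL3_0 = true := by decide +kernel
def ti3_1 : tileCk (nat_lit 61) (nat_lit 4) (nat_lit 2) (nat_lit 1) (nat_lit 60) (nat_lit 11) (nat_lit 19) ZL3_1 CL3 = true := by decide +kernel
def zl3_1 : zlOK (nat_lit 60) ZL3_1 = true := by decide +kernel
def ti3_2 : tileCk (nat_lit 61) (nat_lit 4) (nat_lit 2) (nat_lit 1) (nat_lit 84) (nat_lit 11) (nat_lit 19) ZL3_2 CL3 = true := by decide +kernel
def zl3_2 : zlOK (nat_lit 84) ZL3_2 = true := by decide +kernel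
def tc3_0 : tiCov (nat_lit 1) (nat_lit 0) ZZ3 C3_0 = true := by decide +kernel
def tc3_1 : tiCov (nat_lit 1) (nat_lit 1) ZZ3 C3_1 = true := by decide +kernel
def tc3_2 : tiCov (nat_lit 1) (nat_lit 2) ZZ3 C3_2 = true := by decide +kernel
def tc3_3 : tiCov (nat_lit 1) (nat_lit 3) ZZ3 C3_3 = true := by decide +kernel
def tc3_4 : tiCov (nat_lit 1) (nat_lit 4) ZZ3 C3_4 = true := by decide +kernel
def tc3_5 : tiCov (nat_lit 1) (nat_lit 5) ZZ3 C3_5 = true := by decide +kernel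
def tc3_6 : tiCov (nat_lit 1) (nat_lit 6) ZZ3 C3_6 = true := by decide +kernel
def tc3_7 : tiCov (nat_lit 1) (nat_lit 7) ZZ3 C3_7 = true := by decide +kernel
def tc3_8 : tiCov (nat_lit 1) (nat_lit 8) ZZ3 C3_8 = true := by decide +kernel
def tc3_13 : tiCov (nat_lit 1) (nat_lit 13) ZZ3 C3_13 = true := by decide +kernel
def tc3_14 : tiCov (nat_lit 1) (nat_lit 14) ZZ3 C3_14 = true := by decide +kernel
def tc3_15 : tiCov (nat_lit 1) (nat_lit 15) ZZ3 C3_15 = true := by decide +kernel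
def tc3_16 : tiCov (nat_lit 1) (nat_lit 16) ZZ3 C3_16 = true := by decide +kernel
def tc3_17 : tiCov (nat_lit 1) (nat_lit 17) ZZ3 C3_17 = true := by decide +kernel
def wf4_0 : wfC (nat_lit 61) (nat_lit 5) C4_0 = true := by decide +kernel
def rf4_0 : rfCk (nat_lit 61) (nat_lit 4) (nat_lit 61) (nat_lit 5) (nat_lit 0) (nat_lit 1048576) (nat_lit 0) TL4 CL3 CL4 = true := by decide +kernel
def st4_0_0 : starCk (nat_lit 61) (nat_lit 5) (nat_lit 1) (nat_lit 2) (nat_lit 60) (nat_lit 0) (nat_lit 256) C4_0 = true := by decide +kernel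
def sc4_0 : stCov (nat_lit 2) (nat_lit 0) (Rl.cons (nat_lit 0) (nat_lit 60) Rl.nil) C4_0 = true := by decide +kernel
def wf4_1 : wfC (nat_lit 61) (nat_lit 5) C4_1 = true := by decide +kernel
def rf4_1 : rfCk (nat_lit 61) (nat_lit 4) (nat_lit 61) (nat_lit 5) (nat_lit 0) (nat_lit 1048576) (nat_lit 1) TL4 CL3 CL4 = true := by decide +kernel
def st4_1_0 : starCk (nat_lit 61) (nat_lit 5) (nat_lit 1) (nat_lit 2) (nat_lit 36) (nat_lit 160) (nat_lit 256) C4_1 = true := by decide +kernel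
def sc4_1 : stCov (nat_lit 2) (nat_lit 160) (Rl.cons (nat_lit 160) (nat_lit 36) Rl.nil) C4_1 = true := by decide +kernel
def wf4_2 : wfC (nat_lit 61) (nat_lit 5) C4_2 = true := by decide +kernel
def rf4_2 : rfCk (nat_lit 61) (nat_lit 4) (nat_lit 61) (nat_lit 5) (nat_lit 0) (nat_lit 1048576) (nat_lit 2) TL4 CL3 CL4 = true := by decide +kernel
def st4_2_0 : starCk (nat_lit 61) (nat_lit 5) (nat_lit 1) (nat_lit 2) (nat_lit 59) (nat_lit 273) (nat_lit 16) C4_2 = true := by decide +kernel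
def sc4_2 : stCov (nat_lit 1) (nat_lit 273) (Rl.cons (nat_lit 273) (nat_lit 59) Rl.nil) C4_2 = true := by decide +kernel
def wf4_3 : wfC (nat_lit 61) (nat_lit 5) C4_3 = true := by decide +kernel
def rf4_3 : rfCk (nat_lit 61) (nat_lit 4) (nat_lit 61) (nat_lit 5) (nat_lit 0) (nat_lit 1048576) (nat_lit 3) TL4 CL3 CL4 = true := by decide +kernel
def st4_3_0 : starCk (nat_lit 61) (nat_lit 5) (nat_lit 1) (nat_lit 2) (nat_lit 52) (nat_lit 20) (nat_lit 1) C4_3 = true := by decide +kernel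
def sc4_3 : stCov (nat_lit 0) (nat_lit 20) (Rl.cons (nat_lit 20) (nat_lit 52) Rl.nil) C4_3 = true := by decide +kernel
def wf4_4 : wfC (nat_lit 61) (nat_lit 5) C4_4 = true := by decide +kernel
def rf4_4 : rfCk (nat_lit 61) (nat_lit 4) (nat_lit 61) (nat_lit 5) (nat_lit 0) (nat_lit 1048576) (nat_lit 4) TL4 CL3 CL4 = true := by decide +kernel
def st4_4_0 : starCk (nat_lit 61) (nat_lit 5) (nat_lit 1) (nat_lit 2) (nat_lit 92) (nat_lit 436) (nat_lit 16) C4_4 = true := by decide +kernel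
def sc4_4 : stCov (nat_lit 1) (nat_lit 436) (Rl.cons (nat_lit 436) (nat_lit 92) Rl.nil) C4_4 = true := by decide +kernel
def wf4_5 : wfC (nat_lit 61) (nat_lit 5) C4_5 = true := by decide +kernel
def rf4_5 : rfCk (nat_lit 61) (nat_lit 4) (nat_lit 61) (nat_lit 5) (nat_lit 0) (nat_lit 1048576) (nat_lit 5) TL4 CL3 CL4 = true := by decide +kernel
def st4_5_0 : starCk (nat_lit 61) (nat_lit 5) (nat_lit 1) (nat_lit 2) (nat_lit 54) (nat_lit 491) (nat_lit 256) C4_5 = true := by decide +kernel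
def sc4_5 : stCov (nat_lit 2) (nat_lit 491) (Rl.cons (nat_lit 491) (nat_lit 54) Rl.nil) C4_5 = true := by decide +kernel
def wf4_6 : wfC (nat_lit 61) (nat_lit 5) C4_6 = true := by decide +kernel
def rf4_6 : rfCk (nat_lit 61) (nat_lit 4) (nat_lit 61) (nat_lit 5) (nat_lit 0) (nat_lit 1048576) (nat_lit 6) TL4 CL3 CL4 = true := by decide +kernel
def st4_6_0 : starCk (nat_lit 61) (nat_lit 5) (nat_lit 1) (nat_lit 2) (nat_lit 36) (nat_lit 106) (nat_lit 256) C4_6 = true := by decide +kernel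
def sc4_6 : stCov (nat_lit 2) (nat_lit 106) (Rl.cons (nat_lit 106) (nat_lit 36) Rl.nil) C4_6 = true := by decide +kernel
def wf4_7 : wfC (nat_lit 61) (nat_lit 5) C4_7 = true := by decide +kernel
def rf4_7 : rfCk (nat_lit 61) (nat_lit 4) (nat_lit 61) (nat_lit 5) (nat_lit 0) (nat_lit 1048576) (nat_lit 7) TL4 CL3 CL4 = true := by decide +kernel
def st4_7_0 : starCk (nat_lit 61) (nat_lit 5) (nat_lit 1) (nat_lit 2) (nat_lit 34) (nat_lit 110) (nat_lit 16) C4_7 = true := by decide +kernel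
def sc4_7 : stCov (nat_lit 1) (nat_lit 110) (Rl.cons (nat_lit 110) (nat_lit 34) Rl.nil) C4_7 = true := by decide +kernel
def wf4_8 : wfC (nat_lit 61) (nat_lit 5) C4_8 = true := by decide +kernel
def rf4_8 : rfCk (nat_lit 61) (nat_lit 4) (nat_lit 61) (nat_lit 5) (nat_lit 0) (nat_lit 1048576) (nat_lit 8) TL4 CL3 CL4 = true := by decide +kernel
def st4_8_0 : starCk (nat_lit 61) (nat_lit 5) (nat_lit 1) (nat_lit 2) (nat_lit 12) (nat_lit 97) (nat_lit 16) C4_8 = true := by decide +kernel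
def sc4_8 : stCov (nat_lit 1) (nat_lit 97) (Rl.cons (nat_lit 97) (nat_lit 12) Rl.nil) C4_8 = true := by decide +kernel
def wf4_13 : wfC (nat_lit 61) (nat_lit 5) C4_13 = true := by decide +kernel

end Pool.Agent.NNr.R11_1_3_4
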