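import Pool.Agent.NNr.R11_1_3_4.D3
import Pool.Agent.NNr.R11_1_3_4.D4

set_option linter.all false
set_option maxRecDepth 1000000
namespace Pool.Agent.NNr.R11_1_3_4

open Pool.Agent.NNe

def rf4_13 : rfCk (nat_lit 61) (nat_lit 4) (nat_lit 61) (nat_lit 5) (nat_lit 0) (nat_lit 1048576) (nat_lit 13) TL4 CL3 CL4 = true := by decide +kernel
def st4_13_0 : starCk (nat_lit 61) (nat_lit 5) (nat_lit 1) (nat_lit 2) (nat_lit 484) (nat_lit 1272) (nat_lit 4096) C4_13 = true := by decide +kernel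
def st4_13_1 : starCk (nat_lit 61) (nat_lit 5) (nat_lit 1) (nat_lit 2) (nat_lit 484) (nat_lit 1756) (nat_lit 4096) C4_13 = true := by decide +kernel
def sc4_13 : stCov (nat_lit 3) (nat_lit 1272) (Rl.cons (nat_lit 1272) (nat_lit 484) (Rl.cons (nat_lit 1756) (nat_lit 484) Rl.nil)) C4_13 = true := by decide +kernel
def wf4_14 : wfC (nat_lit 61) (nat_lit 5) C4_14 = true := by decide +kernel
def rf4_14 : rfCk (nat_lit 61) (nat_lit 4) (nat_lit 61) (nat_lit 5) (nat_lit 0) (nat_lit 1048576) (nat_lit 14) TL4 CL3 CL4 = true := by decide +kernel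
def st4_14_0 : starCk (nat_lit 61) (nat_lit 5) (nat_lit 1) (nat_lit 2) (nat_lit 136) (nat_lit 1100) (nat_lit 16) C4_14 = true := by decide +kernel

end Pool.Agent.NNr.R11_1_3_4
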