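import Pool.Agent.NNr.R11_1_3_4.D3
import Pool.Agent.NNr.R11_1_3_4.D4

set_option linter.all false
set_option maxRecDepth 1000000
namespace Pool.Agent.NNr.R11_1_3_4

open Pool.Agent.NNe

def st4_14_1 : starCk (nat_lit 61) (nat_lit 5) (nat_lit 1) (nat_lit 2) (nat_lit 136) (nat_lit 1236) (nat_lit 16) C4_14 = true := by decide +kernel
def sc4_14 : stCov (nat_lit 1) (nat_lit 1100) (Rl.cons (nat_lit 1100) (nat_lit 136) (Rl.cons (nat_lit 1236) (nat_lit 136) Rl.nil)) C4_14 = true := by decide +kernel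
def wf4_15 : wfC (nat_lit 61) (nat_lit 5) C4_15 = true := by decide +kernel
def rf4_15 : rfCk (nat_lit 61) (nat_lit 4) (nat_lit 61) (nat_lit 5) (nat_lit 0) (nat_lit 1048576) (nat_lit 15) TL4 CL3 CL4 = true := by decide +kernel
def st4_15_0 : starCk (nat_lit 61) (nat_lit 5) (nat_lit 1) (nat_lit 2) (nat_lit 229) (nat_lit 902) (nat_lit 16) C4_15 = true := by decide +kernel
def sc4_15 : stCov (nat_lit 1) (nat_lit 902) (Rl.cons (nat_lit 902) (nat_lit 229) Rl.nil) C4_15 = true := by decide +kernel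
def wf4_16 : wfC (nat_lit 61) (nat_lit 5) C4_16 = true := by decide +kernel
def rf4_16 : rfCk (nat_lit 61) (nat_lit 4) (nat_lit 61) (nat_lit 5) (nat_lit 0) (nat_lit 1048576) (nat_lit 16) TL4 CL3 CL4 = true := by decide +kernel
def st4_16_0 : starCk (nat_lit 61) (nat_lit 5) (nat_lit 1) (nat_lit 2) (nat_lit 194) (nat_lit 695) (nat_lit 256) C4_16 = true := by decide +kernel
def sc4_16 : stCov (nat_lit 2) (nat_lit 695) (Rl.cons (nat_lit 695) (nat_lit 194) Rl.nil) C4_16 = true := by decide +kernel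
def wf4_17 : wfC (nat_lit 61) (nat_lit 5) C4_17 = true := by decide +kernel
def rf4_17 : rfCk (nat_lit 61) (nat_lit 4) (nat_lit 61) (nat_lit 5) (nat_lit 0) (nat_lit 1048576) (nat_lit 17) TL4 CL3 CL4 = true := by decide +kernel

end Pool.Agent.NNr.R11_1_3_4
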