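import Pool.Agent.NNr.R11_1_3_4.D4

set_option linter.all false
set_option maxRecDepth 1000000
namespace Pool.Agent.NNr.R11_1_3_4

open Pool.Agent.NNe

def st4_17_0 : starCk (nat_lit 61) (nat_lit 5) (nat_lit 1) (nat_lit 2) (nat_lit 87) (nat_lit 476) (nat_lit 16) C4_17 = true := by decide +kernel
def sc4_17 : stCov (nat_lit 1) (nat_lit 476) (Rl.cons (nat_lit 476) (nat_lit 87) Rl.nil) C4_17 = true := by decide +kernel
def ti4_0 : tileCk (nat_lit 61) (nat_lit 5) (nat_lit 2) (nat_lit 2) (nat_lit 360) (nat_lit 11) (nat_lit 19) ZL4_0 CL4 = true := by decide +kernel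
def zl4_0 : zlOK (nat_lit 360) ZL4_0 = true := by decide +kernel
def ti4_1 : tileCk (nat_lit 61) (nat_lit 5) (nat_lit 2) (nat_lit 2) (nat_lit 75) (nat_lit 11) (nat_lit 19) ZL4_1 CL4 = true := by decide +kernel
def zl4_1 : zlOK (nat_lit 75) ZL4_1 = true := by decide +kernel
def ti4_2 : tileCk (nat_lit 61) (nat_lit 5) (nat_lit 2) (nat_lit 2) (nat_lit 140) (nat_lit 11) (nat_lit 19) ZL4_2 CL4 = true := by decide +kernel
def zl4_2 : zlOK (nat_lit 140) ZL4_2 = true := by decide +kernel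
def ti4_3 : tileCk (nat_lit 61) (nat_lit 5) (nat_lit 2) (nat_lit 2) (nat_lit 232) (nat_lit 11) (nat_lit 19) ZL4_3 CL4 = true := by decide +kernel
def zl4_3 : zlOK (nat_lit 232) ZL4_3 = true := by decide +kernel
def ti4_4 : tileCk (nat_lit 61) (nat_lit 5) (nat_lit 2) (nat_lit 2) (nat_lit 40) (nat_lit 11) (nat_lit 19) ZL4_4 CL4 = true := by decide +kernel
def zl4_4 : zlOK (nat_lit 40) ZL4_4 = true := by decide +kernel

end Pool.Agent.NNr.R11_1_3_4
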