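import Pool.Agent.NNr.R11_1_3_4.D4
import Pool.Agent.NNr.R11_1_3_4.D5

set_option linter.all false
set_option maxRecDepth 1000000
namespace Pool.Agent.NNr.R11_1_3_4

open Pool.Agent.NNe

def ti4_5 : tileCk (nat_lit 61) (nat_lit 5) (nat_lit 2) (nat_lit 2) (nat_lit 140) (nat_lit 11) (nat_lit 19) ZL4_5 CL4 = true := by decide +kernel
def zl4_5 : zlOK (nat_lit 140) ZL4_5 = true := by decide +kernel
def tc4_0 : tiCov (nat_lit 1) (nat_lit 0) ZZ4 C4_0 = true := by decide +kernel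
def tc4_1 : tiCov (nat_lit 1) (nat_lit 1) ZZ4 C4_1 = true := by decide +kernel
def tc4_2 : tiCov (nat_lit 1) (nat_lit 2) ZZ4 C4_2 = true := by decide +kernel
def tc4_3 : tiCov (nat_lit 1) (nat_lit 3) ZZ4 C4_3 = true := by decide +kernel
def tc4_4 : tiCov (nat_lit 1) (nat_lit 4) ZZ4 C4_4 = true := by decide +kernel
def tc4_5 : tiCov (nat_lit 1) (nat_lit 5) ZZ4 C4_5 = true := by decide +kernel
def tc4_6 : tiCov (nat_lit 1) (nat_lit 6) ZZ4 C4_6 = true := by decide +kernel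
def tc4_7 : tiCov (nat_lit 1) (nat_lit 7) ZZ4 C4_7 = true := by decide +kernel
def tc4_8 : tiCov (nat_lit 1) (nat_lit 8) ZZ4 C4_8 = true := by decide +kernel
def tc4_13 : tiCov (nat_lit 1) (nat_lit 13) ZZ4 C4_13 = true := by decide +kernel
def tc4_14 : tiCov (nat_lit 1) (nat_lit 14) ZZ4 C4_14 = true := by decide +kernel
def tc4_15 : tiCov (nat_lit 1) (nat_lit 15) ZZ4 C4_15 = true := by decide +kernel
def tc4_16 : tiCov (nat_lit 1) (nat_lit 16) ZZ4 C4_16 = true := by decide +kernel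
def tc4_17 : tiCov (nat_lit 1) (nat_lit 17) ZZ4 C4_17 = true := by decide +kernel
def wf5_0 : wfC (nat_lit 61) (nat_lit 3) C5_0 = true := by decide +kernel
def rf5_0 : rfCk (nat_lit 61) (nat_lit 5) (nat_lit 61) (nat_lit 3) (nat_lit 3) (nat_lit 2097152) (nat_lit 0) TL5 CL4 CL5 = true := by decide +kernel
def st5_0_0 : starCk (nat_lit 61) (nat_lit 3) (nat_lit 1) (nat_lit 1) (nat_lit 196) (nat_lit 0) (nat_lit 256) C5_0 = true := by decide +kernel
def sc5_0 : stCov (nat_lit 2) (nat_lit 0) (Rl.cons (nat_lit 0) (nat_lit 196) Rl.nil) C5_0 = true := by decide +kernel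
def wf5_1 : wfC (nat_lit 61) (nat_lit 3) C5_1 = true := by decide +kernel
def rf5_1 : rfCk (nat_lit 61) (nat_lit 5) (nat_lit 61) (nat_lit 3) (nat_lit 3) (nat_lit 2097152) (nat_lit 1) TL5 CL4 CL5 = true := by decide +kernel
def st5_1_0 : starCk (nat_lit 61) (nat_lit 3) (nat_lit 1) (nat_lit 1) (nat_lit 116) (nat_lit 392) (nat_lit 256) C5_1 = true := by decide +kernel
def sc5_1 : stCov (nat_lit 2) (nat_lit 392) (Rl.cons (nat_lit 392) (nat_lit 116) Rl.nil) C5_1 = true := by decide +kernel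
def wf5_2 : wfC (nat_lit 61) (nat_lit 3) C5_2 = true := by decide +kernel
def rf5_2 : rfCk (nat_lit 61) (nat_lit 5) (nat_lit 61) (nat_lit 3) (nat_lit 3) (nat_lit 2097152) (nat_lit 2) TL5 CL4 CL5 = true := by decide +kernel
def st5_2_0 : starCk (nat_lit 61) (nat_lit 3) (nat_lit 1) (nat_lit 1) (nat_lit 83) (nat_lit 124) (nat_lit 1) C5_2 = true := by decide +kernel
def sc5_2 : stCov (nat_lit 0) (nat_lit 124) (Rl.cons (nat_lit 124) (nat_lit 83) Rl.nil) C5_2 = true := by decide +kernel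
def wf5_3 : wfC (nat_lit 61) (nat_lit 3) C5_3 = true := by decide +kernel
def rf5_3 : rfCk (nat_lit 61) (nat_lit 5) (nat_lit 61) (nat_lit 3) (nat_lit 3) (nat_lit 2097152) (nat_lit 3) TL5 CL4 CL5 = true := by decide +kernel
def st5_3_0 : starCk (nat_lit 61) (nat_lit 3) (nat_lit 1) (nat_lit 1) (nat_lit 32) (nat_lit 68) (nat_lit 1) C5_3 = true := by decide +kernel
def sc5_3 : stCov (nat_lit 0) (nat_lit 68) (Rl.cons (nat_lit 68) (nat_lit 32) Rl.nil) C5_3 = true := by decide +kernel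
def wf5_4 : wfC (nat_lit 61) (nat_lit 3) C5_4 = true := by decide +kernel
def rf5_4 : rfCk (nat_lit 61) (nat_lit 5) (nat_lit 61) (nat_lit 3) (nat_lit 3) (nat_lit 2097152) (nat_lit 4) TL5 CL4 CL5 = true := by decide +kernel
def st5_4_0 : starCk (nat_lit 61) (nat_lit 3) (nat_lit 1) (nat_lit 1) (nat_lit 132) (nat_lit 168) (nat_lit 1) C5_4 = true := by decide +kernel
def sc5_4 : stCov (nat_lit 0) (nat_lit 168) (Rl.cons (nat_lit 168) (nat_lit 132) Rl.nil) C5_4 = true := by decide +kernel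
def wf5_5 : wfC (nat_lit 61) (nat_lit 3) C5_5 = true := by decide +kernel
def rf5_5 : rfCk (nat_lit 61) (nat_lit 5) (nat_lit 61) (nat_lit 3) (nat_lit 3) (nat_lit 2097152) (nat_lit 5) TL5 CL4 CL5 = true := by decide +kernel
def st5_5_0 : starCk (nat_lit 61) (nat_lit 3) (nat_lit 1) (nat_lit 1) (nat_lit 126) (nat_lit 600) (nat_lit 256) C5_5 = true := by decide +kernel
def sc5_5 : stCov (nat_lit 2) (nat_lit 600) (Rl.cons (nat_lit 600) (nat_lit 126) Rl.nil) C5_5 = true := by decide +kernel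
def wf5_6 : wfC (nat_lit 61) (nat_lit 3) C5_6 = true := by decide +kernel
def rf5_6 : rfCk (nat_lit 61) (nat_lit 5) (nat_lit 61) (nat_lit 3) (nat_lit 3) (nat_lit 2097152) (nat_lit 6) TL5 CL4 CL5 = true := by decide +kernel
def st5_6_0 : starCk (nat_lit 61) (nat_lit 3) (nat_lit 1) (nat_lit 1) (nat_lit 29) (nat_lit 48) (nat_lit 1) C5_6 = true := by decide +kernel
def sc5_6 : stCov (nat_lit 0) (nat_lit 48) (Rl.cons (nat_lit 48) (nat_lit 29) Rl.nil) C5_6 = true := by decide +kernel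
def wf5_7 : wfC (nat_lit 61) (nat_lit 3) C5_7 = true := by decide +kernel
def rf5_7 : rfCk (nat_lit 61) (nat_lit 5) (nat_lit 61) (nat_lit 3) (nat_lit 3) (nat_lit 2097152) (nat_lit 7) TL5 CL4 CL5 = true := by decide +kernel
def st5_7_0 : starCk (nat_lit 61) (nat_lit 3) (nat_lit 1) (nat_lit 1) (nat_lit 37) (nat_lit 72) (nat_lit 1) C5_7 = true := by decide +kernel
def sc5_7 : stCov (nat_lit 0) (nat_lit 72) (Rl.cons (nat_lit 72) (nat_lit 37) Rl.nil) C5_7 = true := by decide +kernel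
def wf5_8 : wfC (nat_lit 61) (nat_lit 3) C5_8 = true := by decide +kernel
def rf5_8 : rfCk (nat_lit 61) (nat_lit 5) (nat_lit 61) (nat_lit 3) (nat_lit 3) (nat_lit 2097152) (nat_lit 8) TL5 CL4 CL5 = true := by decide +kernel
def st5_8_0 : starCk (nat_lit 61) (nat_lit 3) (nat_lit 1) (nat_lit 1) (nat_lit 20) (nat_lit 97) (nat_lit 16) C5_8 = true := by decide +kernel
def sc5_8 : stCov (nat_lit 1) (nat_lit 97) (Rl.cons (nat_lit 97) (nat_lit 20) Rl.nil) C5_8 = true := by decide +kernel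
def wf5_13 : wfC (nat_lit 61) (nat_lit 3) C5_13 = true := by decide +kernel

end Pool.Agent.NNr.R11_1_3_4
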