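import Pool.Agent.NNr.R11_1_3_4.D4
import Pool.Agent.NNr.R11_1_3_4.D5

set_option linter.all false
set_option maxRecDepth 1000000
namespace Pool.Agent.NNr.R11_1_3_4

open Pool.Agent.NNe

def rf5_13 : rfCk (nat_lit 61) (nat_lit 5) (nat_lit 61) (nat_lit 3) (nat_lit 3) (nat_lit 2097152) (nat_lit 13) TL5 CL4 CL5 = true := by decide +kernel
def st5_13_0 : starCk (nat_lit 61) (nat_lit 3) (nat_lit 1) (nat_lit 1) (nat_lit 806) (nat_lit 2021) (nat_lit 4096) C5_13 = true := by decide +kernel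
def st5_13_1 : starCk (nat_lit 61) (nat_lit 3) (nat_lit 1) (nat_lit 1) (nat_lit 806) (nat_lit 2827) (nat_lit 4096) C5_13 = true := by decide +kernel
def sc5_13 : stCov (nat_lit 3) (nat_lit 2021) (Rl.cons (nat_lit 2021) (nat_lit 806) (Rl.cons (nat_lit 2827) (nat_lit 806) Rl.nil)) C5_13 = true := by decide +kernel
def wf5_14 : wfC (nat_lit 61) (nat_lit 3) C5_14 = true := by decide +kernel
def rf5_14 : rfCk (nat_lit 61) (nat_lit 5) (nat_lit 61) (nat_lit 3) (nat_lit 3) (nat_lit 2097152) (nat_lit 14) TL5 CL4 CL5 = true := by decide +kernel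

end Pool.Agent.NNr.R11_1_3_4
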